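import Mathlib

/-!
# Primality by elimination of variables

If `q i = X (T i) * A i + B i` with `A i`, `B i` polynomials not involving the variables `T j`,
and all the `A i` are non-zero-divisors modulo the ideal generated by the `q i`, then this ideal
is prime.
-/

namespace Pool.Agent.Lib.MP_bf1dc4_ag

open MvPolynomial

variable {σ K ι : Type*} [Field K]

theorem prime_of_elim {q : ι → MvPolynomial σ K} (S : Finset ι) (T : ι → σ)
    (A B : ι → MvPolynomial σ K) (hT : ∀ i ∈ S, ∀ j ∈ S, T i = T j → i = j)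
    (hA : ∀ i ∈ S, A i ∈ supported K (T '' (S : Set ι))ᶜ)
    (hB : ∀ i ∈ S, B i ∈ supported K (T '' (S : Set ι))ᶜ)
    (hA0 : ∀ i ∈ S, A i ≠ 0)
    (hq : ∀ i ∈ S, q i = X (T i) * A i + B i)
    (hnzd : ∀ i ∈ S, ∀ g, A i * g ∈ Ideal.span (q '' (S : Set ι)) →
      g ∈ Ideal.span (q '' (S : Set ι))) :
    (Ideal.span (q '' (S : Set ι))).IsPrime := by
  classical
  set J := Ideal.span (q '' (S : Set ι)) with hJ
  set D := supported K (T '' (S : Set ι))ᶜ with hD
  let L := FractionRing (MvPolynomial σ K)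
  let φ : σ → L := fun v =>
    if h : ∃ i ∈ S, T i = v then
      - (algebraMap (MvPolynomial σ K) L (B h.choose)) /
        (algebraMap (MvPolynomial σ K) L (A h.choose))
    else algebraMap (MvPolynomial σ K) L (X v)
  let Φ : MvPolynomial σ K →ₐ[K] L := aeval φ
  have hΦX : ∀ v, Φ (X v) = φ v := fun v => aeval_X φ v
  have hΦT : ∀ i ∈ S, Φ (X (T i)) = - (algebraMap (MvPolynomial σ K) L (B i)) /
        (algebraMap (MvPolynomial σ K) L (A i)) := by
    intro i hi
    rw [hΦX]
    have h : ∃ j ∈ S, T j = T i := ⟨i, hi, rfl⟩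
    have h2 : h.choose = i := hT _ h.choose_spec.1 _ hi h.choose_spec.2
    simp only [φ, dif_pos h, h2]
  have hΦD : ∀ d ∈ D, Φ d = algebraMap (MvPolynomial σ K) L d := by
    intro d hd
    have h1 : D ≤ AlgHom.equalizer Φ (IsScalarTower.toAlgHom K (MvPolynomial σ K) L) := by
      rw [hD, supported]
      apply Algebra.adjoin_le
      rintro _ ⟨v, hv, rfl⟩
      have h : ¬ ∃ i ∈ S, T i = v := by
        rintro ⟨i, hi, hiv⟩
        exact hv ⟨i, hi, hiv⟩
      show Φ (X v) = algebraMap (MvPolynomial σ K) L (X v)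
      rw [hΦX]
      simp only [φ, dif_neg h]
    exact h1 hd
  have hinj : Function.Injective (algebraMap (MvPolynomial σ K) L) :=
    IsFractionRing.injective (MvPolynomial σ K) L
  have hJker : J ≤ RingHom.ker Φ := by
    rw [hJ, Ideal.span_le]
    rintro _ ⟨i, hi, rfl⟩
    show Φ (q i) = 0
    rw [hq i hi, map_add, map_mul, hΦT i hi, hΦD _ (hA i hi), hΦD _ (hB i hi)]
    have h0 : algebraMap (MvPolynomial σ K) L (A i) ≠ 0 := by
      intro h
      exact hA0 i hi (hinj (by rw [h, map_zero]))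
    rw [div_mul_cancel₀ _ h0, neg_add_cancel]
  let M : Submonoid (MvPolynomial σ K) := Submonoid.closure (A '' (S : Set ι))
  have hMD : ∀ s ∈ M, s ∈ D := by
    intro s hs
    have h1 : M ≤ D.toSubmonoid := by
      rw [Submonoid.closure_le]
      rintro _ ⟨i, hi, rfl⟩
      exact hA i hi
    exact h1 hs
  have hMnzd : ∀ s ∈ M, ∀ g, s * g ∈ J → g ∈ J := by
    intro s hs
    induction hs using Submonoid.closure_induction with
    | mem x hx =>
      obtain ⟨i, hi, rfl⟩ := hx
      exact hnzd i hi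
    | one => intro g hg; simpa using hg
    | mul x y _ _ hx hy =>
      intro g hg
      rw [mul_assoc] at hg
      exact hy _ (hx _ hg)
  have key : ∀ g : MvPolynomial σ K, ∃ s ∈ M, ∃ d ∈ D, s * g - d ∈ J := by
    intro g
    induction g using MvPolynomial.induction_on with
    | C a =>
      refine ⟨1, M.one_mem, C a, ?_, by simp⟩
      exact D.algebraMap_mem a
    | add p r hp hr =>
      obtain ⟨s1, hs1, d1, hd1, h1⟩ := hp
      obtain ⟨s2, hs2, d2, hd2, h2⟩ := hr
      refine ⟨s1 * s2, M.mul_mem hs1 hs2, s2 * d1 + s1 * d2,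
        D.add_mem (D.mul_mem (hMD _ hs2) hd1) (D.mul_mem (hMD _ hs1) hd2), ?_⟩
      have : s1 * s2 * (p + r) - (s2 * d1 + s1 * d2) =
          s2 * (s1 * p - d1) + s1 * (s2 * r - d2) := by ring
      rw [this]
      exact J.add_mem (J.mul_mem_left _ h1) (J.mul_mem_left _ h2)
    | mul_X p v hp =>
      obtain ⟨s, hs, d, hd, h1⟩ := hp
      by_cases h : v ∈ T '' (S : Set ι)
      · obtain ⟨i, hi, rfl⟩ := h
        refine ⟨A i * s, M.mul_mem (Submonoid.subset_closure ⟨i, hi, rfl⟩) hs, - (B i * d),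
          D.neg_mem (D.mul_mem (hB i hi) hd), ?_⟩
        have h2 : q i ∈ J := Ideal.subset_span ⟨i, hi, rfl⟩
        have : A i * s * (p * X (T i)) - -(B i * d) =
            (A i * X (T i)) * (s * p - d) + d * q i := by
          rw [hq i hi]; ring
        rw [this]
        exact J.add_mem (J.mul_mem_left _ h1) (J.mul_mem_left _ h2)
      · refine ⟨s, hs, d * X v, D.mul_mem hd ?_, ?_⟩
        · exact Algebra.subset_adjoin ⟨v, h, rfl⟩
        · have : s * (p * X v) - d * X v = X v * (s * p - d) := by ring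
          rw [this]
          exact J.mul_mem_left _ h1
  have hker : J = RingHom.ker Φ := by
    apply le_antisymm hJker
    intro g hg
    obtain ⟨s, hs, d, hd, h1⟩ := key g
    have h2 : Φ (s * g - d) = 0 := hJker h1
    have hg' : Φ g = 0 := hg
    rw [map_sub, map_mul, hg', mul_zero, zero_sub, neg_eq_zero, hΦD d hd] at h2
    have h3 : d = 0 := hinj (by rw [h2, map_zero])
    rw [h3, sub_zero] at h1
    exact hMnzd s hs g h1
  rw [hker]
  exact RingHom.ker_isPrime _

end Pool.Agent.Lib.MP_bf1dc4_ag
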