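import Mathlib

/-!
# Weights, leading monomials, and non-zero-divisors modulo ideals

For a weight `w : σ → ℕ` on the variables we say that `c` has leading monomial `m` when the
coefficient of `m` in `c` is nonzero and all other monomials of `c` have strictly smaller weight.
If a family `c i` has leading monomials `m i` with pairwise disjoint supports, then elements of
the ideal generated by the `c i` have representations without cancellation of leading weights,
and any `f` whose leading monomial is disjoint from all `m i` is a non-zero-divisor modulo the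
ideal.
-/

namespace Pool.Agent.Lib.MP_bf1dc4_ag

open MvPolynomial

variable {σ K ι : Type*} [Field K]

/-- The weight of a monomial. -/
noncomputable def wt (w : σ → ℕ) (μ : σ →₀ ℕ) : ℕ := Finsupp.weight w μ

@[simp] lemma wt_add (w : σ → ℕ) (μ ν : σ →₀ ℕ) : wt w (μ + ν) = wt w μ + wt w ν := by
  simp [wt]

@[simp] lemma wt_zero (w : σ → ℕ) : wt w 0 = 0 := by simp [wt]

@[simp] lemma wt_single (w : σ → ℕ) (a : σ) (n : ℕ) : wt w (Finsupp.single a n) = n * w a := by
  simp [wt, Finsupp.weight_single]

lemma wt_sub_add (w : σ → ℕ) {μ ν : σ →₀ ℕ} (h : ν ≤ μ) : wt w (μ - ν) + wt w ν = wt w μ := by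
  rw [← wt_add, tsub_add_cancel_of_le h]

/-- Polynomials all of whose monomials have weight `< d`. -/
def Low (K : Type*) [Field K] (w : σ → ℕ) (d : ℕ) : Submodule K (MvPolynomial σ K) where
  carrier := {p | ∀ μ, coeff μ p ≠ 0 → wt w μ < d}
  zero_mem' := by intro μ h; simp at h
  add_mem' := by
    intro p q hp hq μ h
    by_cases h1 : coeff μ p = 0
    · apply hq
      intro h2
      apply h
      simp [h1, h2]
    · exact hp μ h1
  smul_mem' := by
    intro a p hp μ h
    apply hp
    intro h1
    apply h
    simp [h1]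

lemma mem_Low {w : σ → ℕ} {d : ℕ} {p : MvPolynomial σ K} :
    p ∈ Low K w d ↔ ∀ μ, coeff μ p ≠ 0 → wt w μ < d := Iff.rfl

lemma Low_mono {w : σ → ℕ} {d e : ℕ} (h : d ≤ e) {p : MvPolynomial σ K} (hp : p ∈ Low K w d) :
    p ∈ Low K w e := fun μ hμ => lt_of_lt_of_le (hp μ hμ) h

lemma Low_zero {w : σ → ℕ} {p : MvPolynomial σ K} (hp : p ∈ Low K w 0) : p = 0 := by
  ext μ
  by_contra h
  have := hp μ (by simpa using h)
  omega

lemma exists_mem_Low (w : σ → ℕ) (p : MvPolynomial σ K) : ∃ d, p ∈ Low K w d := by
  refine ⟨p.support.sup (wt w) + 1, ?_⟩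
  intro μ hμ
  have : wt w μ ≤ p.support.sup (wt w) := Finset.le_sup (mem_support_iff.mpr hμ)
  omega

lemma monomial_mem_Low {w : σ → ℕ} {d : ℕ} {μ : σ →₀ ℕ} (a : K) (h : wt w μ < d) :
    monomial μ a ∈ Low K w d := by
  classical
  intro ν hν
  rw [coeff_monomial] at hν
  split_ifs at hν with h1
  · subst h1; exact h
  · exact absurd rfl hν

lemma coeff_mul_ne_zero {p q : MvPolynomial σ K} {μ : σ →₀ ℕ} (h : coeff μ (p * q) ≠ 0) :
    ∃ a b, a + b = μ ∧ coeff a p ≠ 0 ∧ coeff b q ≠ 0 := by
  classical
  rw [coeff_mul] at h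
  obtain ⟨⟨a, b⟩, hab, h2⟩ := Finset.exists_ne_zero_of_sum_ne_zero h
  refine ⟨a, b, by simpa using hab, ?_, ?_⟩
  · intro h3; apply h2; simp [h3]
  · intro h3; apply h2; simp [h3]

lemma mul_mem_Low {w : σ → ℕ} {d e : ℕ} {p q : MvPolynomial σ K} (hp : p ∈ Low K w (d + 1))
    (hq : q ∈ Low K w e) : p * q ∈ Low K w (d + e) := by
  intro μ hμ
  obtain ⟨a, b, hab, ha, hb⟩ := coeff_mul_ne_zero hμ
  have h1 := hp a ha
  have h2 := hq b hb
  rw [← hab, wt_add]
  omega

/-- `c` has leading monomial `m` for the weight `w`. -/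
def IsLead (w : σ → ℕ) (c : MvPolynomial σ K) (m : σ →₀ ℕ) : Prop :=
  coeff m c ≠ 0 ∧ ∀ μ, coeff μ c ≠ 0 → μ ≠ m → wt w μ < wt w m

lemma IsLead.sub_mem {w : σ → ℕ} {c : MvPolynomial σ K} {m : σ →₀ ℕ} (h : IsLead w c m) :
    c - monomial m (coeff m c) ∈ Low K w (wt w m) := by
  classical
  intro μ hμ
  rw [coeff_sub, coeff_monomial] at hμ
  split_ifs at hμ with h1
  · subst h1; simp at hμ
  · exact h.2 μ (by simpa using hμ) (fun h2 => h1 h2.symm)

lemma IsLead.mem {w : σ → ℕ} {c : MvPolynomial σ K} {m : σ →₀ ℕ} (h : IsLead w c m) :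
    c ∈ Low K w (wt w m + 1) := by
  intro μ hμ
  by_cases h1 : μ = m
  · subst h1; omega
  · have := h.2 μ hμ h1
    omega

/-- extraction of top coefficients -/
lemma IsLead.coeff_top {w : σ → ℕ} {c h : MvPolynomial σ K} {m μ : σ →₀ ℕ} (hc : IsLead w c m)
    (hh : ∀ ν, coeff ν h ≠ 0 → wt w ν + wt w m ≤ wt w μ) :
    coeff μ (h * c) = if m ≤ μ then coeff (μ - m) h * coeff m c else 0 := by
  have h1 : h * c = h * monomial m (coeff m c) + h * (c - monomial m (coeff m c)) := by ring
  rw [h1, coeff_add, coeff_mul_monomial']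
  have h2 : coeff μ (h * (c - monomial m (coeff m c))) = 0 := by
    by_contra h3
    obtain ⟨a, b, hab, ha, hb⟩ := coeff_mul_ne_zero h3
    have h4 := hh a ha
    have h5 := hc.sub_mem b hb
    rw [← hab, wt_add] at h4
    omega
  rw [h2, add_zero]

/-- Reduction of the top part. -/
lemma reduction {w : σ → ℕ} {c : ι → MvPolynomial σ K} {m : ι → σ →₀ ℕ}
    (hlead : ∀ i, IsLead w (c i) (m i)) (S : Set ι) (e : ℕ) (h : MvPolynomial σ K)
    (hh : h ∈ Low K w (e + 1))
    (hdiv : ∀ μ, wt w μ = e → coeff μ h ≠ 0 → ∃ i ∈ S, m i ≤ μ) :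
    ∃ h' ∈ Low K w e, h - h' ∈ Ideal.span (c '' S) := by
  classical
  have key : ∀ μ ∈ h.support, ∃ t ∈ Ideal.span (c '' S),
      monomial μ (coeff μ h) - t ∈ Low K w e := by
    intro μ hμ
    have hμ' := mem_support_iff.mp hμ
    have hlt := hh μ hμ'
    by_cases he : wt w μ = e
    · obtain ⟨i, hi, hmi⟩ := hdiv μ he hμ'
      refine ⟨monomial (μ - m i) (coeff μ h / coeff (m i) (c i)) * c i,
        Ideal.mul_mem_left _ _ (Ideal.subset_span ⟨i, hi, rfl⟩), ?_⟩
      have h1 : monomial μ (coeff μ h) =
          monomial (μ - m i) (coeff μ h / coeff (m i) (c i)) *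
            monomial (m i) (coeff (m i) (c i)) := by
        rw [monomial_mul, tsub_add_cancel_of_le hmi, div_mul_cancel₀ _ (hlead i).1]
      rw [h1, ← mul_sub]
      have h2 : monomial (m i) (coeff (m i) (c i)) - c i ∈ Low K w (wt w (m i)) := by
        have := (Low K w (wt w (m i))).neg_mem (hlead i).sub_mem
        rwa [neg_sub] at this
      have h3 := mul_mem_Low (w := w) (d := wt w (μ - m i))
        (monomial_mem_Low (coeff μ h / coeff (m i) (c i)) (Nat.lt_succ_self _)) h2
      rwa [wt_sub_add w hmi, he] at h3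
    · refine ⟨0, Ideal.zero_mem _, ?_⟩
      rw [sub_zero]
      exact monomial_mem_Low _ (by omega)
  choose! t ht1 ht2 using key
  refine ⟨h - ∑ μ ∈ h.support, t μ, ?_, ?_⟩
  · have h4 : h - ∑ μ ∈ h.support, t μ = ∑ μ ∈ h.support, (monomial μ (coeff μ h) - t μ) := by
      rw [Finset.sum_sub_distrib, support_sum_monomial_coeff]
    rw [h4]
    exact Submodule.sum_mem _ (fun μ hμ => ht2 μ hμ)
  · rw [sub_sub_cancel]
    exact Submodule.sum_mem _ (fun μ hμ => ht1 μ hμ)

lemma le_of_le_add_of_disjoint {m m' μ : σ →₀ ℕ} (hd : Disjoint m.support m'.support)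
    (h : m ≤ μ + m') : m ≤ μ := by
  classical
  intro v
  by_cases hv : m v = 0
  · rw [hv]; exact Nat.zero_le _
  · have h1 : m' v = 0 := by
      by_contra h2
      have h3 : v ∈ m.support := Finsupp.mem_support_iff.mpr hv
      have h4 : v ∈ m'.support := Finsupp.mem_support_iff.mpr h2
      exact (Finset.disjoint_left.mp hd h3) h4
    have := h v
    simpa [h1] using this

/-- Representations without cancellation of the leading weights. -/
theorem strict {w : σ → ℕ} {c : ι → MvPolynomial σ K} {m : ι → σ →₀ ℕ}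
    (hlead : ∀ i, IsLead w (c i) (m i))
    (hdisj : ∀ i j, i ≠ j → Disjoint (m i).support (m j).support) (S : Finset ι) :
    ∀ (d : ℕ) (g : MvPolynomial σ K), g ∈ Ideal.span (c '' (S : Set ι)) → g ∈ Low K w (d + 1) →
      ∃ h : ι → MvPolynomial σ K, g = ∑ i ∈ S, h i * c i ∧
        ∀ i ∈ S, ∀ μ, coeff μ (h i) ≠ 0 → wt w μ + wt w (m i) ≤ d := by
  classical
  induction S using Finset.induction_on with
  | empty =>
    intro d g hg _
    refine ⟨fun _ => 0, ?_, by simp⟩
    simpa using hg
  | @insert a S ha ih =>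
    intro d g hg hgd
    -- key claim: we can lower the coefficient of `c a`
    have claim : ∀ (e : ℕ) (h : MvPolynomial σ K), h ∈ Low K w e →
        g - h * c a ∈ Ideal.span (c '' (S : Set ι)) →
        ∃ h' : MvPolynomial σ K, (∀ μ, coeff μ h' ≠ 0 → wt w μ + wt w (m a) ≤ d) ∧
          g - h' * c a ∈ Ideal.span (c '' (S : Set ι)) := by
      intro e
      induction e with
      | zero =>
        intro h hh hgh
        refine ⟨h, ?_, hgh⟩
        intro μ hμ
        have := hh μ hμ
        omega
      | succ e ihe =>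
        intro h hh hgh
        by_cases hle : e + wt w (m a) ≤ d
        · refine ⟨h, ?_, hgh⟩
          intro μ hμ
          have := hh μ hμ
          omega
        · have hlt : d < e + wt w (m a) := by omega
          have h1 : h * c a ∈ Low K w (e + wt w (m a) + 1) := by
            have := mul_mem_Low hh (hlead a).mem
            rwa [← add_assoc] at this
          have h2 : g - h * c a ∈ Low K w (e + wt w (m a) + 1) :=
            (Low K w _).sub_mem (Low_mono (by omega) hgd) h1
          obtain ⟨t, ht1, ht2⟩ := ih _ _ hgh h2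
          have h3 : ∀ μ, wt w μ = e → coeff μ h ≠ 0 → ∃ i ∈ (S : Set ι), m i ≤ μ := by
            intro μ hμ hcμ
            have hw : wt w (μ + m a) = e + wt w (m a) := by rw [wt_add, hμ]
            have h4 : coeff (μ + m a) (h * c a) = coeff μ h * coeff (m a) (c a) := by
              rw [(hlead a).coeff_top]
              · simp
              · intro ν hν
                have := hh ν hν
                rw [hw]; omega
            have h5 : coeff (μ + m a) g = 0 := by
              by_contra h6
              have := hgd _ h6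
              omega
            have h6 : coeff (μ + m a) (g - h * c a) ≠ 0 := by
              rw [coeff_sub, h5, h4, zero_sub]
              exact neg_ne_zero.mpr (mul_ne_zero hcμ (hlead a).1)
            rw [ht1, coeff_sum] at h6
            obtain ⟨i, hi, h7⟩ := Finset.exists_ne_zero_of_sum_ne_zero h6
            rw [(hlead i).coeff_top] at h7
            · split_ifs at h7 with h8
              · refine ⟨i, hi, le_of_le_add_of_disjoint (hdisj i a ?_) h8⟩
                rintro rfl
                exact ha hi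
              · exact absurd rfl h7
            · intro ν hν
              have := ht2 i hi ν hν
              rw [hw]; exact this
          obtain ⟨h', hh', hsub⟩ := reduction hlead (S : Set ι) e h hh h3
          apply ihe h' hh'
          have h9 : g - h' * c a = (g - h * c a) + (h - h') * c a := by ring
          rw [h9]
          exact Ideal.add_mem _ hgh (Ideal.mul_mem_right _ _ hsub)
    -- start
    have hg2 : ∃ h0 : MvPolynomial σ K, g - h0 * c a ∈ Ideal.span (c '' (S : Set ι)) := by
      rw [Finset.coe_insert, Set.image_insert_eq, Ideal.mem_span_insert] at hg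
      obtain ⟨h0, z, hz, rfl⟩ := hg
      exact ⟨h0, by simpa using hz⟩
    obtain ⟨h0, hh0⟩ := hg2
    obtain ⟨e, he⟩ := exists_mem_Low w h0
    obtain ⟨h', hh'1, hh'2⟩ := claim e h0 he hh0
    have h10 : g - h' * c a ∈ Low K w (d + 1) := by
      apply (Low K w _).sub_mem hgd
      intro μ hμ
      obtain ⟨x, y, hxy, hx, hy⟩ := coeff_mul_ne_zero hμ
      have h11 := hh'1 x hx
      have h12 := (hlead a).mem y hy
      rw [← hxy, wt_add]
      omega
    obtain ⟨t, ht1, ht2⟩ := ih d _ hh'2 h10
    refine ⟨Function.update t a h', ?_, ?_⟩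
    · rw [Finset.sum_insert ha, Function.update_self]
      have h13 : ∑ i ∈ S, Function.update t a h' i * c i = ∑ i ∈ S, t i * c i := by
        apply Finset.sum_congr rfl
        intro i hi
        rw [Function.update_of_ne]
        rintro rfl
        exact ha hi
      rw [h13, ← ht1]
      ring
    · intro i hi μ hμ
      rcases Finset.mem_insert.mp hi with rfl | hi'
      · rw [Function.update_self] at hμ
        exact hh'1 μ hμ
      · rw [Function.update_of_ne] at hμ
        · exact ht2 i hi' μ hμ
        · rintro rfl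
          exact ha hi'

/-- A polynomial with leading monomial disjoint from those of the `c i` is a non-zero-divisor
modulo the ideal generated by the `c i`. -/
theorem nzd {w : σ → ℕ} {c : ι → MvPolynomial σ K} {m : ι → σ →₀ ℕ}
    (hlead : ∀ i, IsLead w (c i) (m i))
    (hdisj : ∀ i j, i ≠ j → Disjoint (m i).support (m j).support) (S : Finset ι)
    {f : MvPolynomial σ K} {mf : σ →₀ ℕ} (hf : IsLead w f mf)
    (hfd : ∀ i ∈ S, Disjoint (m i).support mf.support) {g : MvPolynomial σ K}
    (hg : f * g ∈ Ideal.span (c '' (S : Set ι))) : g ∈ Ideal.span (c '' (S : Set ι)) := by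
  classical
  obtain ⟨e, he⟩ := exists_mem_Low w g
  induction e generalizing g with
  | zero => rw [Low_zero he]; exact Ideal.zero_mem _
  | succ e ihe =>
    have h1 : f * g ∈ Low K w ((e + wt w mf) + 1) := by
      have := mul_mem_Low he hf.mem
      rwa [mul_comm g f, ← add_assoc] at this
    obtain ⟨t, ht1, ht2⟩ := strict hlead hdisj S _ _ hg h1
    have h3 : ∀ μ, wt w μ = e → coeff μ g ≠ 0 → ∃ i ∈ (S : Set ι), m i ≤ μ := by
      intro μ hμ hcμ
      have hw : wt w (μ + mf) = e + wt w mf := by rw [wt_add, hμ]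
      have h4 : coeff (μ + mf) (f * g) = coeff μ g * coeff mf f := by
        rw [mul_comm f g, hf.coeff_top]
        · simp
        · intro ν hν
          have := he ν hν
          rw [hw]; omega
      have h6 : coeff (μ + mf) (f * g) ≠ 0 := by
        rw [h4]
        exact mul_ne_zero hcμ hf.1
      rw [ht1, coeff_sum] at h6
      obtain ⟨i, hi, h7⟩ := Finset.exists_ne_zero_of_sum_ne_zero h6
      rw [(hlead i).coeff_top] at h7
      · split_ifs at h7 with h8
        · exact ⟨i, hi, le_of_le_add_of_disjoint (hfd i hi) h8⟩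
        · exact absurd rfl h7
      · intro ν hν
        have := ht2 i hi ν hν
        rw [hw]; exact this
    obtain ⟨g', hg', hsub⟩ := reduction hlead (S : Set ι) e g he h3
    have h9 : f * g' ∈ Ideal.span (c '' (S : Set ι)) := by
      have : f * g' = f * g - f * (g - g') := by ring
      rw [this]
      exact Ideal.sub_mem _ hg (Ideal.mul_mem_left _ _ hsub)
    have h10 := ihe h9 hg'
    have : g = (g - g') + g' := by ring
    rw [this]
    exact Ideal.add_mem _ hsub h10

end Pool.Agent.Lib.MP_bf1dc4_ag
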