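import Mathlib
import Pool.Agent.Lib.MP_bf1dc4_ag.Lead

/-!
# Primality from leading forms

If `c i = q i + (terms of smaller weight)` with `q i` weighted homogeneous, if elements of the
ideal `(c i)` have representations without cancellation of the leading weights, and if `(q i)` is
prime, then `(c i)` is prime.
-/

namespace Pool.Agent.Lib.MP_bf1dc4_ag

open MvPolynomial

variable {σ K ι : Type*} [Field K]

/-- the part of a polynomial supported on monomials satisfying `P`. -/
noncomputable def part (P : (σ →₀ ℕ) → Prop) (t : MvPolynomial σ K) : MvPolynomial σ K :=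
  open Classical in ∑ μ ∈ t.support with P μ, monomial μ (coeff μ t)

open Classical in
lemma coeff_part (P : (σ →₀ ℕ) → Prop) (t : MvPolynomial σ K) (ν : σ →₀ ℕ) :
    coeff ν (part P t) = if P ν then coeff ν t else 0 := by
  rw [part, coeff_sum]
  simp only [coeff_monomial]
  rw [Finset.sum_ite_eq']
  by_cases h1 : P ν
  · by_cases h2 : coeff ν t = 0
    · simp [h2]
    · simp [h1, h2]
  · simp [h1]

lemma coeff_part_ne {P : (σ →₀ ℕ) → Prop} {t : MvPolynomial σ K} {ν : σ →₀ ℕ}
    (h : coeff ν (part P t) ≠ 0) : P ν ∧ coeff ν t ≠ 0 := by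
  classical
  rw [coeff_part] at h
  split_ifs at h with h1
  · exact ⟨h1, h⟩
  · exact absurd rfl h

/-- the component of weight `d`. -/
noncomputable def comp (w : σ → ℕ) (d : ℕ) (t : MvPolynomial σ K) : MvPolynomial σ K :=
  part (fun μ => wt w μ = d) t

lemma comp_add (w : σ → ℕ) (d : ℕ) (s t : MvPolynomial σ K) :
    comp w d (s + t) = comp w d s + comp w d t := by
  classical
  ext ν
  simp only [comp, coeff_part, coeff_add]
  split_ifs <;> simp

lemma comp_sum (w : σ → ℕ) (d : ℕ) (S : Finset ι) (t : ι → MvPolynomial σ K) :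
    comp w d (∑ i ∈ S, t i) = ∑ i ∈ S, comp w d (t i) := by
  classical
  ext ν
  simp only [comp, coeff_part, coeff_sum]
  split_ifs <;> simp

lemma comp_eq_zero_of_mem_Low {w : σ → ℕ} {d : ℕ} {t : MvPolynomial σ K} (h : t ∈ Low K w d) :
    comp w d t = 0 := by
  ext ν
  rw [coeff_zero]
  by_contra h1
  obtain ⟨h2, h3⟩ := coeff_part_ne h1
  have := h ν h3
  omega

lemma comp_comp (w : σ → ℕ) (d : ℕ) (t : MvPolynomial σ K) : comp w d (comp w d t) = comp w d t := by
  classical
  ext ν
  simp only [comp, coeff_part]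
  split_ifs <;> simp

lemma sub_comp_mem_Low {w : σ → ℕ} {d : ℕ} {t : MvPolynomial σ K} (h : t ∈ Low K w (d + 1)) :
    t - comp w d t ∈ Low K w d := by
  classical
  intro ν hν
  rw [coeff_sub, comp, coeff_part] at hν
  split_ifs at hν with h1
  · simp at hν
  · have := h ν (by simpa using hν)
    omega

/-- homogeneity -/
def Hom (w : σ → ℕ) (q : MvPolynomial σ K) (δ : ℕ) : Prop := ∀ μ, coeff μ q ≠ 0 → wt w μ = δ

lemma hom_comp (w : σ → ℕ) (d : ℕ) (t : MvPolynomial σ K) : Hom w (comp w d t) d := by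
  intro μ hμ
  exact (coeff_part_ne hμ).1

lemma comp_mul_hom {w : σ → ℕ} {q : MvPolynomial σ K} {δ : ℕ} (hq : Hom w q δ) (d : ℕ)
    (t : MvPolynomial σ K) :
    comp w d (t * q) = part (fun μ => wt w μ + δ = d) t * q := by
  classical
  ext ν
  rw [comp, coeff_part, coeff_mul, coeff_mul]
  have key : ∀ x ∈ Finset.HasAntidiagonal.antidiagonal ν,
      (if wt w ν = d then coeff x.1 t * coeff x.2 q else 0) =
        coeff x.1 (part (fun μ => wt w μ + δ = d) t) * coeff x.2 q := by
    intro x hx
    rw [Finset.HasAntidiagonal.mem_antidiagonal] at hx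
    rw [coeff_part]
    by_cases hb : coeff x.2 q = 0
    · simp [hb]
    · have h1 := hq _ hb
      have h2 : wt w ν = wt w x.1 + δ := by rw [← hx, wt_add, h1]
      rw [h2]
      split_ifs <;> simp
  rw [← Finset.sum_congr rfl key]
  split_ifs <;> simp

lemma comp_mul {w : σ → ℕ} {g h : MvPolynomial σ K} {d e : ℕ} (hg : g ∈ Low K w (d + 1))
    (hh : h ∈ Low K w (e + 1)) : comp w (d + e) (g * h) = comp w d g * comp w e h := by
  classical
  have h1 : g * h = h * comp w d g + h * (g - comp w d g) := by ring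
  have h2 : h * (g - comp w d g) ∈ Low K w (e + d) := mul_mem_Low hh (sub_comp_mem_Low hg)
  rw [h1, comp_add, add_comm d e, comp_eq_zero_of_mem_Low h2, add_zero,
    comp_mul_hom (hom_comp w d g)]
  have h3 : part (fun μ => wt w μ + d = e + d) h = comp w e h := by
    ext ν
    rw [comp, coeff_part, coeff_part]
    simp
  rw [h3, mul_comm]

lemma comp_mem_span {w : σ → ℕ} {q : ι → MvPolynomial σ K} {δ : ι → ℕ} {S : Finset ι}
    (hq : ∀ i ∈ S, Hom w (q i) (δ i)) (d : ℕ) {t : MvPolynomial σ K}
    (ht : t ∈ Ideal.span (q '' (S : Set ι))) :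
    ∃ s : ι → MvPolynomial σ K, (∀ i ∈ S, ∀ μ, coeff μ (s i) ≠ 0 → wt w μ + δ i = d) ∧
      comp w d t = ∑ i ∈ S, s i * q i := by
  classical
  have h1 : ∃ c : ι → MvPolynomial σ K, ∑ i ∈ S, c i * q i = t := by
    have := (Submodule.mem_span_image_finset_iff_exists_fun' (R := MvPolynomial σ K)).mp ht
    obtain ⟨c, hc⟩ := this
    exact ⟨c, by simpa [smul_eq_mul] using hc⟩
  obtain ⟨t', rfl⟩ := h1
  refine ⟨fun i => part (fun μ => wt w μ + δ i = d) (t' i), ?_, ?_⟩
  · intro i _ μ hμ
    exact (coeff_part_ne hμ).1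
  · rw [comp_sum]
    apply Finset.sum_congr rfl
    intro i hi
    exact comp_mul_hom (hq i hi) d (t' i)

/-- The main result of this file. -/
theorem prime_of_leading {w : σ → ℕ} {c q : ι → MvPolynomial σ K} {δ : ι → ℕ} (S : Finset ι)
    (hq : ∀ i ∈ S, Hom w (q i) (δ i)) (hc : ∀ i ∈ S, c i - q i ∈ Low K w (δ i))
    (hstrict : ∀ (d : ℕ) (g : MvPolynomial σ K), g ∈ Ideal.span (c '' (S : Set ι)) →
      g ∈ Low K w (d + 1) → ∃ h : ι → MvPolynomial σ K, g = ∑ i ∈ S, h i * c i ∧
        ∀ i ∈ S, ∀ μ, coeff μ (h i) ≠ 0 → wt w μ + δ i ≤ d)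
    (hprime : (Ideal.span (q '' (S : Set ι))).IsPrime) :
    (Ideal.span (c '' (S : Set ι))).IsPrime := by
  classical
  -- leading forms of elements of `(c)` lie in `(q)`
  have claimB : ∀ (d : ℕ) (g : MvPolynomial σ K), g ∈ Ideal.span (c '' (S : Set ι)) →
      g ∈ Low K w (d + 1) → comp w d g ∈ Ideal.span (q '' (S : Set ι)) := by
    intro d g hg hgd
    obtain ⟨h, h1, h2⟩ := hstrict d g hg hgd
    have h3 : g = ∑ i ∈ S, h i * q i + ∑ i ∈ S, h i * (c i - q i) := by
      rw [← Finset.sum_add_distrib, h1]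
      apply Finset.sum_congr rfl
      intro i _
      ring
    have h4 : ∑ i ∈ S, h i * (c i - q i) ∈ Low K w d := by
      apply Submodule.sum_mem
      intro i hi μ hμ
      obtain ⟨x, y, hxy, hx, hy⟩ := coeff_mul_ne_zero hμ
      have h5 := h2 i hi x hx
      have h6 := hc i hi y hy
      rw [← hxy, wt_add]
      omega
    have h7 : ∑ i ∈ S, h i * q i ∈ Ideal.span (q '' (S : Set ι)) :=
      Submodule.sum_mem _ (fun i hi => Ideal.mul_mem_left _ _ (Ideal.subset_span ⟨i, hi, rfl⟩))
    obtain ⟨s, _, hs2⟩ := comp_mem_span hq d h7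
    rw [h3, comp_add, comp_eq_zero_of_mem_Low h4, add_zero, hs2]
    exact Submodule.sum_mem _ (fun i hi => Ideal.mul_mem_left _ _ (Ideal.subset_span ⟨i, hi, rfl⟩))
  -- elements outside `(c)` have a representative with leading form outside `(q)`
  have claimR : ∀ (e : ℕ) (g : MvPolynomial σ K), g ∉ Ideal.span (c '' (S : Set ι)) →
      g ∈ Low K w e → ∃ (g' : MvPolynomial σ K) (d : ℕ), g - g' ∈ Ideal.span (c '' (S : Set ι)) ∧
        g' ∈ Low K w (d + 1) ∧ comp w d g' ∉ Ideal.span (q '' (S : Set ι)) := by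
    intro e
    induction e with
    | zero =>
      intro g hg hge
      rw [Low_zero hge] at hg
      exact absurd (Ideal.zero_mem _) hg
    | succ e ihe =>
      intro g hg hge
      by_cases hcomp : comp w e g ∈ Ideal.span (q '' (S : Set ι))
      · obtain ⟨s, hs1, hs2⟩ := comp_mem_span hq e hcomp
        rw [comp_comp] at hs2
        have h1 : ∑ i ∈ S, s i * c i ∈ Ideal.span (c '' (S : Set ι)) :=
          Submodule.sum_mem _ (fun i hi =>
            Ideal.mul_mem_left _ _ (Ideal.subset_span ⟨i, hi, rfl⟩))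
        have h2 : g - ∑ i ∈ S, s i * c i ∉ Ideal.span (c '' (S : Set ι)) := by
          intro h3
          apply hg
          have := Ideal.add_mem _ h3 h1
          simpa using this
        have h3 : g - ∑ i ∈ S, s i * c i ∈ Low K w e := by
          have h4 : g - ∑ i ∈ S, s i * c i = (g - comp w e g) - ∑ i ∈ S, s i * (c i - q i) := by
            rw [hs2]
            have : ∑ i ∈ S, s i * (c i - q i) = ∑ i ∈ S, s i * c i - ∑ i ∈ S, s i * q i := by
              rw [← Finset.sum_sub_distrib]
              apply Finset.sum_congr rfl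
              intro i _
              ring
            rw [this]
            ring
          rw [h4]
          apply (Low K w e).sub_mem (sub_comp_mem_Low hge)
          apply Submodule.sum_mem
          intro i hi μ hμ
          obtain ⟨x, y, hxy, hx, hy⟩ := coeff_mul_ne_zero hμ
          have h5 := hs1 i hi x hx
          have h6 := hc i hi y hy
          rw [← hxy, wt_add]
          omega
        obtain ⟨g', d, h5, h6, h7⟩ := ihe _ h2 h3
        refine ⟨g', d, ?_, h6, h7⟩
        have := Ideal.add_mem _ h5 h1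
        have h8 : g - ∑ i ∈ S, s i * c i - g' + ∑ i ∈ S, s i * c i = g - g' := by ring
        rwa [h8] at this
      · exact ⟨g, e, by simp, hge, hcomp⟩
  constructor
  · intro htop
    have h1 : (1 : MvPolynomial σ K) ∈ Ideal.span (c '' (S : Set ι)) := by
      rw [htop]; exact Submodule.mem_top
    have h2 : (1 : MvPolynomial σ K) ∈ Low K w (0 + 1) := by
      have := monomial_mem_Low (σ := σ) (w := w) (d := 1) (μ := 0) (1 : K) (by simp)
      simpa using this
    have h3 := claimB 0 1 h1 h2
    have h4 : comp w 0 (1 : MvPolynomial σ K) = 1 := by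
      have h5 := sub_comp_mem_Low (w := w) (d := 0) h2
      have h6 := Low_zero h5
      exact (sub_eq_zero.mp h6).symm
    rw [h4] at h3
    exact hprime.ne_top ((Ideal.eq_top_iff_one _).mpr h3)
  · intro g h hgh
    by_contra hcon
    push Not at hcon
    obtain ⟨hg, hh⟩ := hcon
    obtain ⟨d0, hd0⟩ := exists_mem_Low w g
    obtain ⟨e0, he0⟩ := exists_mem_Low w h
    obtain ⟨g', d, hg1, hg2, hg3⟩ := claimR d0 g hg hd0
    obtain ⟨h', e, hh1, hh2, hh3⟩ := claimR e0 h hh he0
    have h1 : g' * h' ∈ Ideal.span (c '' (S : Set ι)) := by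
      have : g' * h' = g * h - (g - g') * h - g' * (h - h') := by ring
      rw [this]
      exact Ideal.sub_mem _ (Ideal.sub_mem _ hgh (Ideal.mul_mem_right _ _ hg1))
        (Ideal.mul_mem_left _ _ hh1)
    have h2 : g' * h' ∈ Low K w (d + e + 1) := by
      have := mul_mem_Low hg2 hh2
      rwa [← add_assoc] at this
    have h3 := claimB (d + e) _ h1 h2
    rw [comp_mul hg2 hh2] at h3
    rcases hprime.mem_or_mem h3 with h4 | h4
    · exact hg3 h4
    · exact hh3 h4

end Pool.Agent.Lib.MP_bf1dc4_ag
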