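import Mathlib

/-!
# The weights

Everything here is about natural numbers.  The size is `n = r + s + 1` with `s = r` or
`s = r + 1`, `1 ≤ r`.  Row and column indices are `0, …, r + s`, and the reverse of `p` is the
index `q` with `p + q = r + s`.
-/

set_option linter.unusedVariables false

namespace Pool.Agent.Lib.MP_bf1dc4_ag

/-- auxiliary index -/
def kap (r s p : ℕ) : ℕ := if p = r ∨ p = s then 0 else r

/-- index of the leading term `x p k * y k q` -/
def k1 (r s p q : ℕ) : ℕ := if p = q then kap r s p else if p < q then p else q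

/-- index of the leading term `y p k * x k q` -/
def k2 (r s p q : ℕ) : ℕ := if p = q then kap r s p else if p < q then p else kap r s p

/-- weight of `x a b` -/
def wx (r s a b : ℕ) : ℕ :=
  if a = b then (if 2 * a < r + s then (if a = 0 ∨ a = r then 3 else 2) else 0)
  else if b = r ∧ a < r then (if a = 0 then 3 else 2)
  else if a = r ∧ b < r then (if b = 0 then 3 else 2)
  else if b = r ∧ s < a then 2
  else if a = r ∧ s < b then 1
  else if r < s ∧ a = s ∧ b = 0 then 2
  else if r < s ∧ a = 0 ∧ b = s then 1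
  else 0

/-- weight of `y a b` -/
def wy (r s a b : ℕ) : ℕ :=
  if a = b then (if 2 * a < r + s then (if a = 0 ∨ a = r then 4 else 3) else 0)
  else if a + b = r + s ∧ a < b then 1
  else if b = r ∧ s < a then 1
  else if r < s ∧ a = s ∧ b = 0 then 1
  else 0

/-- index conditions for an equation -/
structure Eqn (r s p q : ℕ) : Prop where
  hr : 1 ≤ r
  hs : s = r ∨ s = r + 1
  hp : p ≤ r + s
  hq : q ≤ r + s
  h : p = q ∨ p + q = r + s
  h0 : ¬ (p = 0 ∧ q = 0)

variable {r s p q k : ℕ}

lemma kap_le (r s p : ℕ) : kap r s p ≤ r + s := by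
  unfold kap; split_ifs <;> omega

lemma kap_ne (h : Eqn r s p p) : kap r s p ≠ p := by
  have := h.hr; have := h.hs; have := h.h0
  unfold kap; split_ifs <;> omega

lemma k1_le (h : Eqn r s p q) : k1 r s p q ≤ r + s := by
  have := kap_le r s p; have := h.hp; have := h.hq
  unfold k1; split_ifs <;> omega

lemma k2_le (h : Eqn r s p q) : k2 r s p q ≤ r + s := by
  have := kap_le r s p; have := h.hp; have := h.hq
  unfold k2; split_ifs <;> omega

/-- the leading weight -/
def dl (r p q : ℕ) : ℕ :=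
  if p = q then (if p = r then 3 else 2)
  else if p < q then (if p = 0 ∨ p = r then 4 else 3)
  else (if q = 0 ∨ q = r then 4 else 3)

/-- first leading term -/
lemma w1_eq (h : Eqn r s p q) :
    wx r s p (k1 r s p q) + wy r s (k1 r s p q) q = dl r p q := by
  obtain ⟨hr, hs, hp, hq, h, h0⟩ := h
  rcases lt_trichotomy p q with h1 | h1 | h1
  · have e1 : k1 r s p q = p := by unfold k1; split_ifs <;> omega
    have e2 : wx r s p p = if p = 0 ∨ p = r then 3 else 2 := by
      unfold wx; split_ifs <;> omega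
    have e3 : wy r s p q = 1 := by
      unfold wy; split_ifs <;> omega
    have e4 : dl r p q = if p = 0 ∨ p = r then 4 else 3 := by
      unfold dl; split_ifs <;> omega
    rw [e1, e2, e3, e4]
    split_ifs <;> omega
  · subst h1
    have e1 : k1 r s p p = kap r s p := by simp [k1]
    have e4 : dl r p p = if p = r then 3 else 2 := by simp [dl]
    rw [e1, e4]
    by_cases hpr : p = r ∨ p = s
    · have e5 : kap r s p = 0 := by simp [kap, hpr]
      have e6 : wx r s p 0 = if p = r then 3 else 2 := by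
        unfold wx; split_ifs <;> omega
      have e7 : wy r s 0 p = 0 := by
        unfold wy; split_ifs <;> omega
      rw [e5, e6, e7, add_zero]
    · have e5 : kap r s p = r := by simp [kap, hpr]
      have e6 : wx r s p r = 2 := by
        unfold wx; split_ifs <;> omega
      have e7 : wy r s r p = 0 := by
        unfold wy; split_ifs <;> omega
      rw [e5, e6, e7]
      split_ifs <;> omega
  · have e1 : k1 r s p q = q := by unfold k1; split_ifs <;> omega
    have e2 : wx r s p q = 0 := by
      unfold wx; split_ifs <;> omega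
    have e3 : wy r s q q = if q = 0 ∨ q = r then 4 else 3 := by
      unfold wy; split_ifs <;> omega
    have e4 : dl r p q = if q = 0 ∨ q = r then 4 else 3 := by
      unfold dl; split_ifs <;> omega
    rw [e1, e2, e3, e4]
    split_ifs <;> omega

/-- second leading term -/
lemma w2_eq (h : Eqn r s p q) :
    wy r s p (k2 r s p q) + wx r s (k2 r s p q) q = dl r p q := by
  obtain ⟨hr, hs, hp, hq, h, h0⟩ := h
  rcases lt_trichotomy p q with h1 | h1 | h1
  · have e1 : k2 r s p q = p := by unfold k2; split_ifs <;> omega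
    have e2 : wy r s p p = if p = 0 ∨ p = r then 4 else 3 := by
      unfold wy; split_ifs <;> omega
    have e3 : wx r s p q = 0 := by
      unfold wx; split_ifs <;> omega
    have e4 : dl r p q = if p = 0 ∨ p = r then 4 else 3 := by
      unfold dl; split_ifs <;> omega
    rw [e1, e2, e3, e4]
    split_ifs <;> omega
  · subst h1
    have e1 : k2 r s p p = kap r s p := by simp [k2]
    have e4 : dl r p p = if p = r then 3 else 2 := by simp [dl]
    rw [e1, e4]
    by_cases hpr : p = r ∨ p = s
    · have e5 : kap r s p = 0 := by simp [kap, hpr]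
      have e6 : wx r s 0 p = if p = r then 3 else 1 := by
        unfold wx; split_ifs <;> omega
      have e7 : wy r s p 0 = if p = r then 0 else 1 := by
        unfold wy; split_ifs <;> omega
      rw [e5, e6, e7]
      split_ifs <;> omega
    · have e5 : kap r s p = r := by simp [kap, hpr]
      have e6 : wx r s r p = if p < r then 2 else 1 := by
        unfold wx; split_ifs <;> omega
      have e7 : wy r s p r = if p < r then 0 else 1 := by
        unfold wy; split_ifs <;> omega
      rw [e5, e6, e7]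
      split_ifs <;> omega
  · have e1 : k2 r s p q = kap r s p := by unfold k2; split_ifs <;> omega
    have e4 : dl r p q = if q = 0 ∨ q = r then 4 else 3 := by
      unfold dl; split_ifs <;> omega
    rw [e1, e4]
    by_cases hpr : p = r ∨ p = s
    · have e5 : kap r s p = 0 := by simp [kap, hpr]
      have e6 : wx r s 0 q = 3 := by
        unfold wx; split_ifs <;> omega
      have e7 : wy r s p 0 = 1 := by
        unfold wy; split_ifs <;> omega
      rw [e5, e6, e7]
      split_ifs <;> omega
    · have e5 : kap r s p = r := by simp [kap, hpr]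
      have e6 : wx r s r q = if q = 0 then 3 else 2 := by
        unfold wx; split_ifs <;> omega
      have e7 : wy r s p r = 1 := by
        unfold wy; split_ifs <;> omega
      rw [e5, e6, e7]
      split_ifs <;> omega

/-! Upper bounds. -/

section bounds

variable {a b : ℕ}

-- upper type: `p < q`, `p + q = r + s`
lemma U1 (h2 : r ≤ s) (h3 : p < q) (h4 : p + q = r + s) (hs : s ≤ r + 1) (hk : k ≠ p) :
    wy r s k q = 0 := by
  unfold wy; split_ifs <;> omega

lemma U2 (h2 : r ≤ s) (h3 : p < q) (h4 : p + q = r + s) (hs : s ≤ r + 1) (hk : k ≠ p) :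
    wx r s p k ≤ 2 ∨ ((p = 0 ∨ p = r) ∧ wx r s p k ≤ 3) := by
  unfold wx; split_ifs <;> omega

lemma U3 (h2 : r ≤ s) (h3 : p < q) (h4 : p + q = r + s) (hs : s ≤ r + 1) (hk : k ≠ p) :
    wy r s p k ≤ 1 := by
  unfold wy; split_ifs <;> omega

lemma U4 (h2 : r ≤ s) (h3 : p < q) (h4 : p + q = r + s) (hs : s ≤ r + 1) :
    wx r s k q ≤ 1 := by
  unfold wx; split_ifs <;> omega

-- lower type: `q < p`, `p + q = r + s`
lemma L1 (hr : 1 ≤ r) (h2 : r ≤ s) (h3 : q < p) (h4 : p + q = r + s) (hs : s ≤ r + 1)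
    (hk : k ≠ q) : wx r s p k ≤ 2 := by
  unfold wx; split_ifs <;> omega

lemma L2 (hr : 1 ≤ r) (h2 : r ≤ s) (h3 : q < p) (h4 : p + q = r + s) (hs : s ≤ r + 1)
    (hk : k ≠ q) : wy r s k q = 0 ∨ (wy r s k q = 1 ∧ s < k ∧ q = r) ∨
      (wy r s k q = 1 ∧ r < s ∧ k = s ∧ q = 0) := by
  unfold wy; split_ifs <;> omega

lemma L3 (h2 : r ≤ s) (h4 : p = s) (hk : s < k) : wx r s p k ≤ 1 := by
  unfold wx; split_ifs <;> omega

lemma L4 (hr : 1 ≤ r) (h2 : r < s) (h4 : p = r + s) (hs : s = r + 1) (hk : k = s) :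
    wx r s p k = 0 := by
  unfold wx; split_ifs <;> omega

lemma L5 (hr : 1 ≤ r) (h2 : r ≤ s) (h3 : q < p) (h4 : p + q = r + s) (hs : s ≤ r + 1)
    (hk : (s < p ∧ k ≠ r) ∨ (p = s ∧ k ≠ 0)) : wy r s p k = 0 := by
  unfold wy; split_ifs <;> omega

lemma L6 (hr : 1 ≤ r) (h2 : r ≤ s) (h3 : q < p) (h4 : p + q = r + s) (hs : s ≤ r + 1) :
    wx r s k q ≤ 2 ∨ ((q = 0 ∨ q = r) ∧ wx r s k q ≤ 3) := by
  unfold wx; split_ifs <;> omega

-- diagonal type
lemma D1 (hk : k ≠ 0) (hk2 : k ≠ r) : wx r s r k ≤ 2 := by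
  unfold wx; split_ifs <;> omega

lemma D1' (h2 : r ≤ s) (hk2 : s < k) : wx r s r k ≤ 1 := by
  unfold wx; split_ifs <;> omega

lemma D2 (h2 : r ≤ s) (hk2 : k ≠ r) : wy r s k r ≤ 1 := by
  unfold wy; split_ifs <;> omega

lemma D2' (hr : 1 ≤ r) (h2 : r ≤ s) (hk2 : k ≠ r) (hk : k ≤ s) : wy r s k r = 0 := by
  unfold wy; split_ifs <;> omega

lemma D3 (h2 : r < s) (hk : k ≠ 0) (hk2 : k ≠ s) : wx r s s k = 0 := by
  unfold wx; split_ifs <;> omega

lemma D4 (hr : 1 ≤ r) (h2 : r < s) (hk2 : k ≠ s) : wy r s k s ≤ 1 := by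
  unfold wy; split_ifs <;> omega

lemma D5 (hp : p ≠ 0) (hpr : p ≠ r) (hps : p ≠ s) (hk : k ≠ r) (hk2 : k ≠ p) :
    wx r s p k = 0 := by
  unfold wx; split_ifs <;> omega

lemma D6 (hp : p ≠ 0) (hpr : p ≠ r) (hps : p ≠ s) (hk : k ≠ r) (hk2 : k ≠ p) :
    wy r s k p ≤ 1 := by
  unfold wy; split_ifs <;> omega

lemma D7 (h2 : r ≤ s) (hk : k ≠ r) : wy r s r k ≤ 1 := by
  unfold wy; split_ifs <;> omega

lemma D7' (h2 : r ≤ s) (hk : k ≠ r) (hks : k ≠ s) : wy r s r k = 0 := by
  unfold wy; split_ifs <;> omega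

lemma D8 (hk : k ≠ 0) (hk2 : k ≠ r) : wx r s k r ≤ 2 := by
  unfold wx; split_ifs <;> omega

lemma D8' (hr : 1 ≤ r) (h2 : r < s) : wx r s s r = 0 := by
  unfold wx; split_ifs <;> omega

lemma D9 (h2 : r < s) (hk : k ≠ 0) (hk2 : k ≠ s) : wy r s s k = 0 := by
  unfold wy; split_ifs <;> omega

lemma D10 (hr : 1 ≤ r) (h2 : r < s) (hk : k ≠ 0) (hk2 : k ≠ s) : wx r s k s = 0 := by
  unfold wx; split_ifs <;> omega

lemma D11 (hp : p ≠ 0) (hpr : p ≠ r) (hps : p ≠ s) (hk : k ≠ r) (hk2 : k ≠ p) :
    wy r s p k ≤ 1 := by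
  unfold wy; split_ifs <;> omega

lemma D12 (hp : p ≠ 0) (hpr : p ≠ r) (hps : p ≠ s) (hk : k ≠ r) (hk2 : k ≠ p) :
    wx r s k p = 0 := by
  unfold wx; split_ifs <;> omega

end bounds

lemma dl_U (h : p < q) : dl r p q = if p = 0 ∨ p = r then 4 else 3 := by
  unfold dl; rw [if_neg (by omega), if_pos h]

lemma dl_L (h : q < p) : dl r p q = if q = 0 ∨ q = r then 4 else 3 := by
  unfold dl; rw [if_neg (by omega), if_neg (by omega)]

lemma dl_D : dl r p p = if p = r then 3 else 2 := by
  unfold dl; rw [if_pos rfl]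

lemma k1_U (h : p < q) : k1 r s p q = p := by
  unfold k1; rw [if_neg (by omega), if_pos h]

lemma k1_L (h : q < p) : k1 r s p q = q := by
  unfold k1; rw [if_neg (by omega), if_neg (by omega)]

lemma k1_D : k1 r s p p = kap r s p := by
  unfold k1; rw [if_pos rfl]

lemma k2_U (h : p < q) : k2 r s p q = p := by
  unfold k2; rw [if_neg (by omega), if_pos h]

lemma k2_L (h : q < p) : k2 r s p q = kap r s p := by
  unfold k2; rw [if_neg (by omega), if_neg (by omega)]

lemma k2_D : k2 r s p p = kap r s p := by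
  unfold k2; rw [if_pos rfl]

lemma kap_rs (h : p = r ∨ p = s) : kap r s p = 0 := by
  unfold kap; rw [if_pos h]

lemma kap_nrs (h : p ≠ r) (h' : p ≠ s) : kap r s p = r := by
  unfold kap; rw [if_neg (by omega)]

/-- all other terms of the first sum have smaller weight -/
lemma w1_lt (h : Eqn r s p q) (hk : k ≤ r + s) (hk1 : k ≠ k1 r s p q) (hd : ¬ (p = q ∧ k = p)) :
    wx r s p k + wy r s k q < dl r p q := by
  obtain ⟨hr, hs, hp, hq, h, h0⟩ := h
  have h2 : r ≤ s := by omega
  have h2' : s ≤ r + 1 := by omega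
  rcases lt_trichotomy p q with h1 | h1 | h1
  · have h4 : p + q = r + s := by omega
    rw [k1_U h1] at hk1
    rw [dl_U h1, U1 h2 h1 h4 h2' hk1]
    rcases U2 h2 h1 h4 h2' hk1 with e | ⟨e1, e2⟩
    · split_ifs <;> omega
    · rw [if_pos e1]; omega
  · subst h1
    rw [k1_D] at hk1
    rw [dl_D]
    have hkp : k ≠ p := fun e => hd ⟨rfl, e⟩
    by_cases hpr : p = r
    · rw [kap_rs (Or.inl hpr)] at hk1
      rw [if_pos hpr]
      subst hpr
      by_cases hks : k ≤ s
      · have e1 := D1 (s := s) hk1 hkp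
        have e2 := D2' hr h2 hkp hks
        omega
      · have e1 := D1' (r := p) h2 (show s < k by omega)
        have e2 := D2 h2 hkp
        omega
    · rw [if_neg hpr]
      by_cases hps : p = s
      · rw [kap_rs (Or.inr hps)] at hk1
        subst hps
        have h3 : r < p := by omega
        have e1 := D3 h3 hk1 hkp
        have e2 := D4 hr h3 hkp
        omega
      · rw [kap_nrs hpr hps] at hk1
        have hp0 : p ≠ 0 := by omega
        have e1 := D5 hp0 hpr hps hk1 hkp
        have e2 := D6 hp0 hpr hps hk1 hkp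
        omega
  · have h4 : p + q = r + s := by omega
    rw [k1_L h1] at hk1
    rw [dl_L h1]
    have e1 := L1 hr h2 h1 h4 h2' hk1
    rcases L2 hr h2 h1 h4 h2' hk1 with e2 | ⟨e2, e3, e4⟩ | ⟨e2, e3, e4, e5⟩
    · rw [e2]; split_ifs <;> omega
    · have e5 := L3 (r := r) h2 (show p = s by omega) e3
      rw [if_pos (Or.inr e4)]
      omega
    · rw [if_pos (Or.inl e5)]
      omega

/-- all other terms of the second sum have smaller weight -/
lemma w2_lt (h : Eqn r s p q) (hk : k ≤ r + s) (hk1 : k ≠ k2 r s p q) (hd : ¬ (p = q ∧ k = p)) :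
    wy r s p k + wx r s k q < dl r p q := by
  obtain ⟨hr, hs, hp, hq, h, h0⟩ := h
  have h2 : r ≤ s := by omega
  have h2' : s ≤ r + 1 := by omega
  rcases lt_trichotomy p q with h1 | h1 | h1
  · have h4 : p + q = r + s := by omega
    rw [k2_U h1] at hk1
    rw [dl_U h1]
    have e1 := U3 h2 h1 h4 h2' hk1
    have e2 := U4 (k := k) h2 h1 h4 h2'
    split_ifs <;> omega
  · subst h1
    rw [k2_D] at hk1
    rw [dl_D]
    have hkp : k ≠ p := fun e => hd ⟨rfl, e⟩
    by_cases hpr : p = r
    · rw [kap_rs (Or.inl hpr)] at hk1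
      rw [if_pos hpr]
      subst hpr
      by_cases hks : k = s
      · subst hks
        have e1 := D7 h2 hkp
        have e2 := D8' hr (show p < k by omega)
        omega
      · have e1 := D7' h2 hkp hks
        have e2 := D8 (s := s) hk1 hkp
        omega
    · rw [if_neg hpr]
      by_cases hps : p = s
      · rw [kap_rs (Or.inr hps)] at hk1
        subst hps
        have h3 : r < p := by omega
        have e1 := D9 h3 hk1 hkp
        have e2 := D10 hr h3 hk1 hkp
        omega
      · rw [kap_nrs hpr hps] at hk1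
        have hp0 : p ≠ 0 := by omega
        have e1 := D11 hp0 hpr hps hk1 hkp
        have e2 := D12 hp0 hpr hps hk1 hkp
        omega
  · have h4 : p + q = r + s := by omega
    rw [k2_L h1] at hk1
    rw [dl_L h1]
    have e0 : (s < p ∧ k ≠ r) ∨ (p = s ∧ k ≠ 0) := by
      by_cases hps : p = s
      · right
        rw [kap_rs (Or.inr hps)] at hk1
        exact ⟨hps, hk1⟩
      · left
        rw [kap_nrs (by omega) hps] at hk1
        exact ⟨by omega, hk1⟩
    rw [L5 hr h2 h1 h4 h2' e0]
    rcases L6 (k := k) hr h2 h1 h4 h2' with e1 | ⟨e1, e2⟩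
    · split_ifs <;> omega
    · rw [if_pos e1]; omega

end Pool.Agent.Lib.MP_bf1dc4_ag
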