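import Mathlib
import Pool.Agent.Lib.MP_bf1dc4_ag.Weights

/-!
# Three choices of leading monomials

For each equation the leading form is the binomial
`x p k1 * y k1 q - y p k2 * x k2 q`.  A system chooses one of the two terms for each equation,
in such a way that the chosen monomials are pairwise coprime, together with `0/1` weights making
the chosen terms leading.
-/

set_option linter.unusedVariables false

namespace Pool.Agent.Lib.MP_bf1dc4_ag

/-- A choice of leading terms; `ch p q` means that the second term is chosen. -/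
structure LSys (r s : ℕ) where
  ch : ℕ → ℕ → Prop
  f : ℕ → ℕ → ℕ
  g : ℕ → ℕ → ℕ
  hf : ∀ a b, f a b ≤ 1
  hg : ∀ a b, g a b ≤ 1
  h1 : ∀ p q, Eqn r s p q → ¬ ch p q → f p (k1 r s p q) = 1 ∧ g (k1 r s p q) q = 1 ∧
    (f (k2 r s p q) q = 0 ∨ g p (k2 r s p q) = 0)
  h2 : ∀ p q, Eqn r s p q → ch p q → f (k2 r s p q) q = 1 ∧ g p (k2 r s p q) = 1 ∧
    (f p (k1 r s p q) = 0 ∨ g (k1 r s p q) q = 0)
  ix11 : ∀ p q p' q', Eqn r s p q → Eqn r s p' q' → ¬ ch p q → ¬ ch p' q' →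
    p = p' → k1 r s p q = k1 r s p' q' → q = q'
  iy11 : ∀ p q p' q', Eqn r s p q → Eqn r s p' q' → ¬ ch p q → ¬ ch p' q' →
    q = q' → k1 r s p q = k1 r s p' q' → p = p'
  ix12 : ∀ p q p' q', Eqn r s p q → Eqn r s p' q' → ¬ ch p q → ch p' q' →
    p = k2 r s p' q' → k1 r s p q = q' → False
  iy12 : ∀ p q p' q', Eqn r s p q → Eqn r s p' q' → ¬ ch p q → ch p' q' →
    q = k2 r s p' q' → k1 r s p q = p' → False
  ix22 : ∀ p q p' q', Eqn r s p q → Eqn r s p' q' → ch p q → ch p' q' →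
    k2 r s p q = k2 r s p' q' → q = q' → p = p'
  iy22 : ∀ p q p' q', Eqn r s p q → Eqn r s p' q' → ch p q → ch p' q' →
    k2 r s p q = k2 r s p' q' → p = p' → q = q'

variable {r s p q k : ℕ}

/-- every equation is of one of the three types -/
lemma Eqn.cases (h : Eqn r s p q) :
    (p < q ∧ p + q = r + s) ∨ (q < p ∧ p + q = r + s) ∨ (p = q ∧ p ≠ 0) := by
  obtain ⟨hr, hs, hp, hq, h, h0⟩ := h
  omega

lemma rs_le (h : Eqn r s p q) : r ≤ s := by have := h.hs; omega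
lemma rs_le' (h : Eqn r s p q) : s ≤ r + 1 := by have := h.hs; omega

lemma k1_inj_q {q' : ℕ} (h : Eqn r s p q) (h' : Eqn r s p q')
    (e : k1 r s p q = k1 r s p q') : q = q' := by
  have hr := h.hr
  have h2 := rs_le h
  rcases h.cases with ⟨a1, a2⟩ | ⟨a1, a2⟩ | ⟨a1, a2⟩ <;>
  rcases h'.cases with ⟨b1, b2⟩ | ⟨b1, b2⟩ | ⟨b1, b2⟩
  · omega
  · omega
  · rw [k1_U a1] at e
    subst b1
    rw [k1_D] at e
    unfold kap at e
    split_ifs at e <;> omega
  · omega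
  · omega
  · rw [k1_L a1] at e
    subst b1
    rw [k1_D] at e
    unfold kap at e
    split_ifs at e <;> omega
  · rw [k1_U b1] at e
    subst a1
    rw [k1_D] at e
    unfold kap at e
    split_ifs at e <;> omega
  · rw [k1_L b1] at e
    subst a1
    rw [k1_D] at e
    unfold kap at e
    split_ifs at e <;> omega
  · omega

lemma k1_inj_p {p' : ℕ} (h : Eqn r s p q) (h' : Eqn r s p' q)
    (e : k1 r s p q = k1 r s p' q) : p = p' := by
  have hr := h.hr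
  have h2 := rs_le h
  rcases h.cases with ⟨a1, a2⟩ | ⟨a1, a2⟩ | ⟨a1, a2⟩ <;>
  rcases h'.cases with ⟨b1, b2⟩ | ⟨b1, b2⟩ | ⟨b1, b2⟩
  · omega
  · omega
  · rw [k1_U a1] at e
    subst b1
    rw [k1_D] at e
    unfold kap at e
    split_ifs at e <;> omega
  · omega
  · omega
  · rw [k1_L a1] at e
    subst b1
    rw [k1_D] at e
    unfold kap at e
    split_ifs at e <;> omega
  · rw [k1_U b1] at e
    subst a1
    rw [k1_D] at e
    unfold kap at e
    split_ifs at e <;> omega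
  · rw [k1_L b1] at e
    subst a1
    rw [k1_D] at e
    unfold kap at e
    split_ifs at e <;> omega
  · omega

/-- cases for the auxiliary index on the diagonal -/
lemma kap_cases (h : Eqn r s p q) : (p = r ∧ kap r s p = 0) ∨ (p = s ∧ r < s ∧ kap r s p = 0) ∨
    (p ≠ r ∧ p ≠ s ∧ kap r s p = r) := by
  have hs := h.hs
  by_cases h1 : p = r
  · exact Or.inl ⟨h1, kap_rs (Or.inl h1)⟩
  · by_cases h2 : p = s
    · exact Or.inr (Or.inl ⟨h2, by omega, kap_rs (Or.inr h2)⟩)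
    · exact Or.inr (Or.inr ⟨h1, h2, kap_nrs h1 h2⟩)

/-! ### System B -/

def fB (r s a b : ℕ) : ℕ :=
  if (a = b ∧ 2 * a < r + s) ∨ (b < a ∧ a + b = r + s) ∨ (b = r ∧ a ≠ 0 ∧ a ≠ r ∧ a ≠ s) ∨
    (a = r ∧ b = 0) ∨ (r < s ∧ a = s ∧ b = 0) then 1 else 0

def gB (r s a b : ℕ) : ℕ :=
  if (a + b = r + s ∧ a < b) ∨ (a = b ∧ 2 * a < r + s) ∨ (a = r ∧ b ≠ 0 ∧ b ≠ r ∧ b ≠ s) ∨
    (a = 0 ∧ b = r) ∨ (r < s ∧ a = 0 ∧ b = s) then 1 else 0

lemma sysB_h1 (h : Eqn r s p q) : fB r s p (k1 r s p q) = 1 ∧ gB r s (k1 r s p q) q = 1 ∧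
    (fB r s (k2 r s p q) q = 0 ∨ gB r s p (k2 r s p q) = 0) := by
  have hr := h.hr
  have h2 := rs_le h
  have h2' := rs_le' h
  rcases h.cases with ⟨a1, a2⟩ | ⟨a1, a2⟩ | ⟨a1, a2⟩
  · rw [k1_U a1, k2_U a1]
    refine ⟨?_, ?_, Or.inl ?_⟩
    · unfold fB; rw [if_pos (by omega)]
    · unfold gB; rw [if_pos (by omega)]
    · unfold fB; rw [if_neg (by omega)]
  · rw [k1_L a1, k2_L a1]
    refine ⟨?_, ?_, Or.inr ?_⟩
    · unfold fB; rw [if_pos (by omega)]
    · unfold gB; rw [if_pos (by omega)]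
    · rcases kap_cases h with ⟨c1, c2⟩ | ⟨c1, c3, c2⟩ | ⟨c1, c3, c2⟩
      · rw [c2]; unfold gB; rw [if_neg (by omega)]
      · rw [c2]; unfold gB; rw [if_neg (by omega)]
      · rw [c2]; unfold gB; rw [if_neg (by omega)]
  · subst a1
    rw [k1_D, k2_D]
    rcases kap_cases h with ⟨c1, c2⟩ | ⟨c1, c3, c2⟩ | ⟨c1, c3, c2⟩
    · rw [c2]
      refine ⟨?_, ?_, Or.inr ?_⟩
      · unfold fB; rw [if_pos (by omega)]
      · unfold gB; rw [if_pos (by omega)]
      · unfold gB; rw [if_neg (by omega)]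
    · rw [c2]
      refine ⟨?_, ?_, Or.inr ?_⟩
      · unfold fB; rw [if_pos (by omega)]
      · unfold gB; rw [if_pos (by omega)]
      · unfold gB; rw [if_neg (by omega)]
    · rw [c2]
      refine ⟨?_, ?_, Or.inr ?_⟩
      · unfold fB; rw [if_pos (by omega)]
      · unfold gB; rw [if_pos (by omega)]
      · unfold gB; rw [if_neg (by omega)]

/-- all first terms are chosen -/
def sysB (r s : ℕ) : LSys r s where
  ch _ _ := False
  f := fB r s
  g := gB r s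
  hf a b := by unfold fB; split_ifs <;> omega
  hg a b := by unfold gB; split_ifs <;> omega
  h1 p q h _ := sysB_h1 h
  h2 p q h c := c.elim
  ix11 p q p' q' h h' _ _ e1 e2 := by subst e1; exact k1_inj_q h h' e2
  iy11 p q p' q' h h' _ _ e1 e2 := by subst e1; exact k1_inj_p h h' e2
  ix12 p q p' q' h h' _ c := c.elim
  iy12 p q p' q' h h' _ c := c.elim
  ix22 p q p' q' h h' c := c.elim
  iy22 p q p' q' h h' c := c.elim

/-! ### System C -/

def fC (r s a b : ℕ) : ℕ :=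
  if (a = b ∧ 2 * a < r + s) ∨ (s < a ∧ a + b = r + s) ∨ (r < s ∧ a = 0 ∧ b = r) ∨
    (b = r ∧ a ≠ 0 ∧ a ≠ r ∧ a ≠ s) ∨ (a = r ∧ b = 0) ∨ (r < s ∧ a = s ∧ b = 0) then 1 else 0

def gC (r s a b : ℕ) : ℕ :=
  if (a + b = r + s ∧ a < b) ∨ (a = b ∧ a < r) ∨ (r < s ∧ a = s ∧ b = 0) ∨
    (a = r ∧ b ≠ 0 ∧ b ≠ r ∧ b ≠ s) ∨ (a = 0 ∧ b = r) ∨ (r < s ∧ a = 0 ∧ b = s) then 1 else 0

lemma sysC_h1 (h : Eqn r s p q) (hc : ¬ (q < p ∧ p = s)) :
    fC r s p (k1 r s p q) = 1 ∧ gC r s (k1 r s p q) q = 1 ∧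
    (fC r s (k2 r s p q) q = 0 ∨ gC r s p (k2 r s p q) = 0) := by
  have hr := h.hr
  have h2 := rs_le h
  have h2' := rs_le' h
  rcases h.cases with ⟨a1, a2⟩ | ⟨a1, a2⟩ | ⟨a1, a2⟩
  · rw [k1_U a1, k2_U a1]
    refine ⟨?_, ?_, Or.inl ?_⟩
    · unfold fC; rw [if_pos (by omega)]
    · unfold gC; rw [if_pos (by omega)]
    · unfold fC; rw [if_neg (by omega)]
  · rw [k1_L a1, k2_L a1]
    refine ⟨?_, ?_, Or.inr ?_⟩
    · unfold fC; rw [if_pos (by omega)]
    · unfold gC; rw [if_pos (by omega)]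
    · rcases kap_cases h with ⟨c1, c2⟩ | ⟨c1, c3, c2⟩ | ⟨c1, c3, c2⟩
      · omega
      · omega
      · rw [c2]; unfold gC; rw [if_neg (by omega)]
  · subst a1
    rw [k1_D, k2_D]
    rcases kap_cases h with ⟨c1, c2⟩ | ⟨c1, c3, c2⟩ | ⟨c1, c3, c2⟩
    · rw [c2]
      refine ⟨?_, ?_, Or.inr ?_⟩
      · unfold fC; rw [if_pos (by omega)]
      · unfold gC; rw [if_pos (by omega)]
      · unfold gC; rw [if_neg (by omega)]
    · rw [c2]
      refine ⟨?_, ?_, Or.inl ?_⟩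
      · unfold fC; rw [if_pos (by omega)]
      · unfold gC; rw [if_pos (by omega)]
      · unfold fC; rw [if_neg (by omega)]
    · rw [c2]
      refine ⟨?_, ?_, Or.inr ?_⟩
      · unfold fC; rw [if_pos (by omega)]
      · unfold gC; rw [if_pos (by omega)]
      · unfold gC; rw [if_neg (by omega)]

lemma sysC_h2 (h : Eqn r s p q) (hc : q < p ∧ p = s) :
    fC r s (k2 r s p q) q = 1 ∧ gC r s p (k2 r s p q) = 1 ∧
    (fC r s p (k1 r s p q) = 0 ∨ gC r s (k1 r s p q) q = 0) := by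
  have hr := h.hr
  have h2 := rs_le h
  have h2' := rs_le' h
  have h3 := h.h
  rw [k1_L hc.1, k2_L hc.1, kap_rs (Or.inr hc.2)]
  refine ⟨?_, ?_, Or.inl ?_⟩
  · unfold fC; rw [if_pos (by omega)]
  · unfold gC; rw [if_pos (by omega)]
  · unfold fC; rw [if_neg (by omega)]

/-- the second term is chosen only for the equation `(s, r)` -/
def sysC (r s : ℕ) : LSys r s where
  ch p q := q < p ∧ p = s
  f := fC r s
  g := gC r s
  hf a b := by unfold fC; split_ifs <;> omega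
  hg a b := by unfold gC; split_ifs <;> omega
  h1 p q h c := sysC_h1 h c
  h2 p q h c := sysC_h2 h c
  ix11 p q p' q' h h' _ _ e1 e2 := by subst e1; exact k1_inj_q h h' e2
  iy11 p q p' q' h h' _ _ e1 e2 := by subst e1; exact k1_inj_p h h' e2
  ix12 p q p' q' h h' c c' e1 e2 := by
    rw [k2_L c'.1, kap_rs (Or.inr c'.2)] at e1
    subst e1
    have h3 := h'.h
    have hr := h.hr
    rcases h.cases with ⟨a1, a2⟩ | ⟨a1, a2⟩ | ⟨a1, a2⟩
    · rw [k1_U a1] at e2; omega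
    · omega
    · omega
  iy12 p q p' q' h h' c c' e1 e2 := by
    rw [k2_L c'.1, kap_rs (Or.inr c'.2)] at e1
    subst e1
    have h3 := h'.h
    have hr := h.hr
    have hs := rs_le h
    rcases h.cases with ⟨a1, a2⟩ | ⟨a1, a2⟩ | ⟨a1, a2⟩
    · omega
    · rw [k1_L a1] at e2; omega
    · omega
  ix22 p q p' q' h h' c c' e1 e2 := by omega
  iy22 p q p' q' h h' c c' e1 e2 := by
    have h3 := h'.h
    have h4 := h.h
    omega

/-! ### System A -/

def fA (r s a b : ℕ) : ℕ :=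
  if (a = b ∧ 2 * a < r + s) ∨ (b = r ∧ a ≠ r) ∨ (a = r ∧ b < r) ∨ (r < s ∧ a = s ∧ b = 0)
  then 1 else 0

def gA (r s a b : ℕ) : ℕ :=
  if (a + b = r + s ∧ a < b) ∨ (b = r ∧ s < a) ∨ (r < s ∧ a = r ∧ b = r) ∨
    (a = r ∧ b ≠ r ∧ b ≠ s) ∨ (r < s ∧ a = 0 ∧ b = s) then 1 else 0

/-- where the second term is chosen -/
def chA (r s p q : ℕ) : Prop := (q < p ∧ s < p) ∨ (p = q ∧ p = r)

lemma chA_k2 (h : Eqn r s p q) (hc : chA r s p q) :
    (q < r ∧ s < p ∧ p + q = r + s ∧ k2 r s p q = r ∧ k1 r s p q = q) ∨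
    (p = r ∧ q = r ∧ k2 r s p q = 0 ∧ k1 r s p q = 0) := by
  have h2 := rs_le h
  have h3 := h.h
  rcases hc with ⟨c1, c2⟩ | ⟨c1, c2⟩
  · left
    refine ⟨by omega, c2, by omega, ?_, ?_⟩
    · rw [k2_L c1, kap_nrs (by omega) (by omega)]
    · rw [k1_L c1]
  · right
    subst c1
    refine ⟨c2, c2, ?_, ?_⟩
    · rw [k2_D, kap_rs (Or.inl c2)]
    · rw [k1_D, kap_rs (Or.inl c2)]

lemma sysA_h1 (h : Eqn r s p q) (hc : ¬ chA r s p q) :
    fA r s p (k1 r s p q) = 1 ∧ gA r s (k1 r s p q) q = 1 ∧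
    (fA r s (k2 r s p q) q = 0 ∨ gA r s p (k2 r s p q) = 0) := by
  have hr := h.hr
  have h2 := rs_le h
  have h2' := rs_le' h
  unfold chA at hc
  rcases h.cases with ⟨a1, a2⟩ | ⟨a1, a2⟩ | ⟨a1, a2⟩
  · rw [k1_U a1, k2_U a1]
    refine ⟨?_, ?_, Or.inl ?_⟩
    · unfold fA; rw [if_pos (by omega)]
    · unfold gA; rw [if_pos (by omega)]
    · unfold fA; rw [if_neg (by omega)]
  · have hps : p = s := by omega
    rw [k1_L a1, k2_L a1, kap_rs (Or.inr hps)]
    refine ⟨?_, ?_, Or.inr ?_⟩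
    · unfold fA; rw [if_pos (by omega)]
    · unfold gA; rw [if_pos (by omega)]
    · unfold gA; rw [if_neg (by omega)]
  · subst a1
    rw [k1_D, k2_D]
    rcases kap_cases h with ⟨c1, c2⟩ | ⟨c1, c3, c2⟩ | ⟨c1, c3, c2⟩
    · exact absurd (Or.inr ⟨rfl, c1⟩) hc
    · rw [c2]
      refine ⟨?_, ?_, Or.inl ?_⟩
      · unfold fA; rw [if_pos (by omega)]
      · unfold gA; rw [if_pos (by omega)]
      · unfold fA; rw [if_neg (by omega)]
    · rw [c2]
      refine ⟨?_, ?_, ?_⟩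
      · unfold fA; rw [if_pos (by omega)]
      · unfold gA; rw [if_pos (by omega)]
      · by_cases hpr : p < r
        · right; unfold gA; rw [if_neg (by omega)]
        · left; unfold fA; rw [if_neg (by omega)]

lemma sysA_h2 (h : Eqn r s p q) (hc : chA r s p q) :
    fA r s (k2 r s p q) q = 1 ∧ gA r s p (k2 r s p q) = 1 ∧
    (fA r s p (k1 r s p q) = 0 ∨ gA r s (k1 r s p q) q = 0) := by
  have hr := h.hr
  have h2 := rs_le h
  have h2' := rs_le' h
  rcases chA_k2 h hc with ⟨c1, c2, c3, c4, c5⟩ | ⟨c1, c2, c4, c5⟩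
  · rw [c4, c5]
    refine ⟨?_, ?_, Or.inl ?_⟩
    · unfold fA; rw [if_pos (by omega)]
    · unfold gA; rw [if_pos (by omega)]
    · unfold fA; rw [if_neg (by omega)]
  · rw [c4, c5]
    refine ⟨?_, ?_, Or.inr ?_⟩
    · unfold fA; rw [if_pos (by omega)]
    · unfold gA; rw [if_pos (by omega)]
    · unfold gA; rw [if_neg (by omega)]

/-- the second term is chosen for the lower equations outside the middle block and for
`(r, r)`. -/
def sysA (r s : ℕ) : LSys r s where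
  ch := chA r s
  f := fA r s
  g := gA r s
  hf a b := by unfold fA; split_ifs <;> omega
  hg a b := by unfold gA; split_ifs <;> omega
  h1 p q h c := sysA_h1 h c
  h2 p q h c := sysA_h2 h c
  ix11 p q p' q' h h' _ _ e1 e2 := by subst e1; exact k1_inj_q h h' e2
  iy11 p q p' q' h h' _ _ e1 e2 := by subst e1; exact k1_inj_p h h' e2
  ix12 p q p' q' h h' c c' e1 e2 := by
    have hr := h.hr
    have hs := rs_le h
    unfold chA at c
    rcases chA_k2 h' c' with ⟨c1, c2, c3, c4, c5⟩ | ⟨c1, c2, c4, c5⟩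
    · rw [c4] at e1
      rcases h.cases with ⟨a1, a2⟩ | ⟨a1, a2⟩ | ⟨a1, a2⟩
      · rw [k1_U a1] at e2; omega
      · omega
      · omega
    · rw [c4] at e1
      rcases h.cases with ⟨a1, a2⟩ | ⟨a1, a2⟩ | ⟨a1, a2⟩
      · rw [k1_U a1] at e2; omega
      · omega
      · omega
  iy12 p q p' q' h h' c c' e1 e2 := by
    have hr := h.hr
    have hs := rs_le h
    unfold chA at c
    rcases chA_k2 h' c' with ⟨c1, c2, c3, c4, c5⟩ | ⟨c1, c2, c4, c5⟩
    · rw [c4] at e1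
      rcases h.cases with ⟨a1, a2⟩ | ⟨a1, a2⟩ | ⟨a1, a2⟩
      · omega
      · rw [k1_L a1] at e2; omega
      · omega
    · rw [c4] at e1
      rcases h.cases with ⟨a1, a2⟩ | ⟨a1, a2⟩ | ⟨a1, a2⟩
      · omega
      · rw [k1_L a1] at e2; omega
      · omega
  ix22 p q p' q' h h' c c' e1 e2 := by
    rcases chA_k2 h c with ⟨c1, c2, c3, c4, c5⟩ | ⟨c1, c2, c4, c5⟩ <;>
    rcases chA_k2 h' c' with ⟨d1, d2, d3, d4, d5⟩ | ⟨d1, d2, d4, d5⟩ <;> omega
  iy22 p q p' q' h h' c c' e1 e2 := by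
    rcases chA_k2 h c with ⟨c1, c2, c3, c4, c5⟩ | ⟨c1, c2, c4, c5⟩ <;>
    rcases chA_k2 h' c' with ⟨d1, d2, d3, d4, d5⟩ | ⟨d1, d2, d4, d5⟩ <;> omega

/-! ### Variables avoided by the systems -/

lemma gA_diag {m : ℕ} (hr : 1 ≤ r) (hs : r ≤ s) (hm : m < r) : gA r s m m = 0 := by
  unfold gA; rw [if_neg (by omega)]

lemma gC_rr (hr : 1 ≤ r) (hs : r < s) : gC r s r r = 0 := by
  unfold gC; rw [if_neg (by omega)]

lemma fB_kap (h : Eqn r s p p) (hp : p ≤ r) : fB r s (kap r s p) p = 0 := by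
  have hr := h.hr
  have h2 := rs_le h
  have h2' := rs_le' h
  have h0 := h.h0
  rcases kap_cases h with ⟨c1, c2⟩ | ⟨c1, c3, c2⟩ | ⟨c1, c3, c2⟩
  · rw [c2]; unfold fB; rw [if_neg (by omega)]
  · rw [c2]; unfold fB; rw [if_neg (by omega)]
  · rw [c2]; unfold fB; rw [if_neg (by omega)]

lemma gB_kap (h : Eqn r s p p) (hp : r < p) : gB r s p (kap r s p) = 0 := by
  have hr := h.hr
  have h2 := rs_le h
  have h2' := rs_le' h
  have h0 := h.h0
  rcases kap_cases h with ⟨c1, c2⟩ | ⟨c1, c3, c2⟩ | ⟨c1, c3, c2⟩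
  · rw [c2]; unfold gB; rw [if_neg (by omega)]
  · rw [c2]; unfold gB; rw [if_neg (by omega)]
  · rw [c2]; unfold gB; rw [if_neg (by omega)]

end Pool.Agent.Lib.MP_bf1dc4_ag
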