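import Mathlib
import Pool.Agent.Lib.MP_bf1dc4_ag.Lead
import Pool.Agent.Lib.MP_bf1dc4_ag.Graded
import Pool.Agent.Lib.MP_bf1dc4_ag.Elim
import Pool.Agent.Lib.MP_bf1dc4_ag.Systems

/-!
# The commutator polynomials
-/

namespace Pool.Agent.Lib.MP_bf1dc4_ag

open MvPolynomial

/-- the variables: `inl (i, j)` is `x_{ij}` and `inr (i, j)` is `y_{ij}`. -/
abbrev Var (n : ℕ) := (Fin n × Fin n) ⊕ (Fin n × Fin n)

section general

variable {σ K ι : Type*} [Field K]

lemma lead_sub {w : σ → ℕ} {u v : σ →₀ ℕ} (h : wt w v < wt w u) :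
    IsLead w (monomial u (1 : K) - monomial v 1) u := by
  classical
  have hne : v ≠ u := by rintro rfl; omega
  refine ⟨by simp [coeff_monomial, hne], ?_⟩
  intro μ hμ hne'
  rw [coeff_sub, coeff_monomial, coeff_monomial, if_neg (Ne.symm hne')] at hμ
  split_ifs at hμ with h1
  · rw [← h1]; exact h
  · simp at hμ

lemma lead_sub' {w : σ → ℕ} {u v : σ →₀ ℕ} (h : wt w u < wt w v) :
    IsLead w (monomial u (1 : K) - monomial v 1) v := by
  classical
  have hne : u ≠ v := by rintro rfl; omega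
  refine ⟨by simp [coeff_monomial, hne], ?_⟩
  intro μ hμ hne'
  rw [coeff_sub, coeff_monomial, coeff_monomial, if_neg (Ne.symm hne')] at hμ
  split_ifs at hμ with h1
  · rw [← h1]; exact h
  · simp at hμ

lemma wt_lin (w wB : σ → ℕ) (N : ℕ) (μ : σ →₀ ℕ) :
    wt (fun v => N * w v + wB v) μ = N * wt w μ + wt wB μ := by
  induction μ using Finsupp.induction_linear with
  | zero => simp
  | add f g hf hg => rw [wt_add, wt_add, wt_add, hf, hg]; ring
  | single a b => rw [wt_single, wt_single, wt_single]; ring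

/-- strictness for the weight `w`, from a refinement of the weight with leading monomials. -/
theorem strict_of_two [Finite ι] {w wB : σ → ℕ} {c q : ι → MvPolynomial σ K}
    {m : ι → σ →₀ ℕ} {δ : ι → ℕ} (S : Finset ι)
    (hq : ∀ i, Hom w (q i) (δ i)) (hc : ∀ i, c i - q i ∈ Low K w (δ i))
    (hB : ∀ i, IsLead wB (q i) (m i))
    (hdisj : ∀ i j, i ≠ j → Disjoint (m i).support (m j).support) :
    ∀ (d : ℕ) (g : MvPolynomial σ K), g ∈ Ideal.span (c '' (S : Set ι)) →
      g ∈ Low K w (d + 1) → ∃ h : ι → MvPolynomial σ K, g = ∑ i ∈ S, h i * c i ∧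
        ∀ i ∈ S, ∀ μ, coeff μ (h i) ≠ 0 → wt w μ + δ i ≤ d := by
  classical
  intro d g hg hgd
  have : Fintype ι := Fintype.ofFinite ι
  have hmδ : ∀ i, wt w (m i) = δ i := fun i => hq i _ (hB i).1
  have hcm : ∀ i, coeff (m i) (c i) = coeff (m i) (q i) := by
    intro i
    by_contra h
    have h1 : coeff (m i) (c i - q i) ≠ 0 := by
      rw [coeff_sub]; exact sub_ne_zero.mpr h
    have := hc i _ h1
    rw [hmδ] at this
    omega
  obtain ⟨N, hN1, hN2⟩ : ∃ N : ℕ, (∀ μ ∈ g.support, wt wB μ < N) ∧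
      (∀ i, ∀ μ ∈ (c i).support, wt wB μ < N) := by
    refine ⟨g.support.sup (wt wB) + (Finset.univ.sup fun i => (c i).support.sup (wt wB)) + 1,
      ?_, ?_⟩
    · intro μ hμ
      have : wt wB μ ≤ g.support.sup (wt wB) := Finset.le_sup hμ
      omega
    · intro i μ hμ
      have h1 : wt wB μ ≤ (c i).support.sup (wt wB) := Finset.le_sup hμ
      have h2 : (c i).support.sup (wt wB) ≤
          Finset.univ.sup fun i => (c i).support.sup (wt wB) :=
        Finset.le_sup (f := fun i => (c i).support.sup (wt wB)) (Finset.mem_univ i)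
      omega
  have hN0 : 0 < N ∨ g = 0 := by
    by_cases hg0 : g = 0
    · exact Or.inr hg0
    · left
      obtain ⟨μ, hμ⟩ := MvPolynomial.support_nonempty.mpr hg0
      have := hN1 μ hμ
      omega
  rcases hN0 with hN0 | hg0
  swap
  · exact ⟨fun _ => 0, by simp [hg0], by simp⟩
  set W : σ → ℕ := fun v => N * w v + wB v with hW
  have hlead : ∀ i, IsLead W (c i) (m i) := by
    intro i
    refine ⟨by rw [hcm i]; exact (hB i).1, ?_⟩
    intro μ hμ hne
    rw [hW, wt_lin, wt_lin, hmδ i]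
    by_cases h1 : coeff μ (q i) = 0
    · have h2 : coeff μ (c i - q i) ≠ 0 := by
        rw [coeff_sub, h1, sub_zero]; exact hμ
      have h3 := hc i μ h2
      have h4 := hN2 i μ (mem_support_iff.mpr hμ)
      have h5 : N * (wt w μ + 1) ≤ N * δ i := Nat.mul_le_mul_left N h3
      rw [Nat.mul_add, Nat.mul_one] at h5
      omega
    · have h3 := hq i μ h1
      have h4 := (hB i).2 μ h1 hne
      rw [h3]
      omega
  have hgW : g ∈ Low K W (N * d + (N - 1) + 1) := by
    intro μ hμ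
    rw [hW, wt_lin]
    have h1 := hgd μ hμ
    have h2 := hN1 μ (mem_support_iff.mpr hμ)
    have h5 : N * wt w μ ≤ N * d := Nat.mul_le_mul_left N (by omega)
    omega
  obtain ⟨h, h1, h2⟩ := strict hlead hdisj S _ g hg hgW
  refine ⟨h, h1, ?_⟩
  intro i hi μ hμ
  have h3 := h2 i hi μ hμ
  rw [hW, wt_lin, wt_lin, hmδ i] at h3
  by_contra hcon
  have h4 : N * (d + 1) ≤ N * (wt w μ + δ i) := Nat.mul_le_mul_left N (by omega)
  rw [Nat.mul_add, Nat.mul_add, Nat.mul_one] at h4
  omega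

end general

section comm

variable (K : Type*) [Field K] {n : ℕ}

/-- the variable `x_{ab}` -/
noncomputable def xv (a b : Fin n) : MvPolynomial (Var n) K := X (Sum.inl (a, b))

/-- the variable `y_{ab}` -/
noncomputable def yv (a b : Fin n) : MvPolynomial (Var n) K := X (Sum.inr (a, b))

/-- the entry `(p, q)` of the commutator `XY - YX` -/
noncomputable def cpoly (p q : Fin n) : MvPolynomial (Var n) K :=
  ∑ k, xv K p k * yv K k q - ∑ k, yv K p k * xv K k q

/-- weights on the variables -/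
def wV (n : ℕ) (f g : ℕ → ℕ → ℕ) : Var n → ℕ :=
  Sum.elim (fun v => f v.1 v.2) (fun v => g v.1 v.2)

/-- the monomial `x_{ab} y_{cd}` -/
noncomputable def mon2 (a b c d : Fin n) : Var n →₀ ℕ :=
  Finsupp.single (Sum.inl (a, b)) 1 + Finsupp.single (Sum.inr (c, d)) 1

lemma xv_mul_yv (a b c d : Fin n) : xv K a b * yv K c d = monomial (mon2 a b c d) 1 := by
  rw [xv, yv, X, X, monomial_mul, mon2, one_mul]

lemma yv_mul_xv (a b c d : Fin n) : yv K c d * xv K a b = monomial (mon2 a b c d) 1 := by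
  rw [mul_comm, xv_mul_yv]

lemma wt_mon2 (f g : ℕ → ℕ → ℕ) (a b c d : Fin n) :
    wt (wV n f g) (mon2 a b c d) = f a b + g c d := by
  simp [mon2, wV]

lemma mem_support_mon2 {a b c d : Fin n} {v : Var n} (h : v ∈ (mon2 a b c d).support) :
    v = Sum.inl (a, b) ∨ v = Sum.inr (c, d) := by
  classical
  by_contra hcon
  push Not at hcon
  have : mon2 a b c d v = 0 := by
    simp only [mon2, Finsupp.add_apply]
    rw [Finsupp.single_eq_of_ne hcon.1, Finsupp.single_eq_of_ne hcon.2, add_zero]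
  exact (Finsupp.mem_support_iff.mp h) this

/-- an index of an equation -/
structure Idx (r s : ℕ) where
  p : Fin (r + s + 1)
  q : Fin (r + s + 1)
  e : Eqn r s p q

variable {r s : ℕ}

lemma Idx.ext' {i j : Idx r s} (h1 : (i.p : ℕ) = j.p) (h2 : (i.q : ℕ) = j.q) : i = j := by
  cases i; cases j
  simp only [Idx.mk.injEq]
  exact ⟨Fin.ext h1, Fin.ext h2⟩

instance : Finite (Idx r s) :=
  Finite.of_injective (fun i : Idx r s => (i.p, i.q)) (by
    intro i j h
    simp only [Prod.mk.injEq] at h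
    exact Idx.ext' (by rw [h.1]) (by rw [h.2]))

/-- first auxiliary index -/
def Idx.K1 (i : Idx r s) : Fin (r + s + 1) := ⟨k1 r s i.p i.q, by have := k1_le i.e; omega⟩

/-- second auxiliary index -/
def Idx.K2 (i : Idx r s) : Fin (r + s + 1) := ⟨k2 r s i.p i.q, by have := k2_le i.e; omega⟩

@[simp] lemma Idx.K1_val (i : Idx r s) : (i.K1 : ℕ) = k1 r s i.p i.q := rfl
@[simp] lemma Idx.K2_val (i : Idx r s) : (i.K2 : ℕ) = k2 r s i.p i.q := rfl

/-- the leading binomial -/
noncomputable def qpoly (i : Idx r s) : MvPolynomial (Var (r + s + 1)) K :=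
  xv K i.p i.K1 * yv K i.K1 i.q - yv K i.p i.K2 * xv K i.K2 i.q

/-- first monomial -/
noncomputable def mU (i : Idx r s) : Var (r + s + 1) →₀ ℕ := mon2 i.p i.K1 i.K1 i.q

/-- second monomial -/
noncomputable def mV (i : Idx r s) : Var (r + s + 1) →₀ ℕ := mon2 i.K2 i.q i.p i.K2

lemma qpoly_eq (i : Idx r s) : qpoly K i = monomial (mU i) 1 - monomial (mV i) 1 := by
  rw [qpoly, xv_mul_yv, yv_mul_xv, mU, mV]

/-- the weight `w` -/
def ww (r s : ℕ) : Var (r + s + 1) → ℕ := wV _ (wx r s) (wy r s)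

lemma wt_mU (i : Idx r s) : wt (ww r s) (mU i) = dl r i.p i.q := by
  rw [mU, ww, wt_mon2]
  exact w1_eq i.e

lemma wt_mV (i : Idx r s) : wt (ww r s) (mV i) = dl r i.p i.q := by
  rw [mV, ww, wt_mon2, add_comm]
  exact w2_eq i.e

lemma hom_qpoly (i : Idx r s) : Hom (ww r s) (qpoly K i) (dl r i.p i.q) := by
  classical
  intro μ hμ
  rw [qpoly_eq, coeff_sub, coeff_monomial, coeff_monomial] at hμ
  by_cases h1 : mU i = μ
  · rw [← h1, wt_mU]
  · by_cases h2 : mV i = μ
    · rw [← h2, wt_mV]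
    · rw [if_neg h1, if_neg h2] at hμ
      simp at hμ

lemma xy_mem_Low {a b c d : Fin (r + s + 1)} {e : ℕ} (h : wx r s a b + wy r s c d < e) :
    xv K a b * yv K c d ∈ Low K (ww r s) e := by
  rw [xv_mul_yv]
  apply monomial_mem_Low
  rw [ww, wt_mon2]
  exact h

lemma sum_sub_mem {m : ℕ} {M : Type*} [AddCommGroup M] [Module K M] (N : Submodule K M)
    (F : Fin m → M) (k0 p : Fin m) (hne : k0 ≠ p) (h : ∀ k, k ≠ k0 → k ≠ p → F k ∈ N) :
    ∑ k, F k - F k0 - F p ∈ N := by
  classical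
  have h1 : ∑ k, F k - F k0 - F p = ∑ k ∈ (Finset.univ.erase k0).erase p, F k := by
    have h2 : ∑ k ∈ (Finset.univ.erase k0).erase p, F k + F p = ∑ k ∈ Finset.univ.erase k0, F k :=
      Finset.sum_erase_add _ _ (Finset.mem_erase.mpr ⟨hne.symm, Finset.mem_univ _⟩)
    have h3 : ∑ k ∈ Finset.univ.erase k0, F k + F k0 = ∑ k, F k :=
      Finset.sum_erase_add _ _ (Finset.mem_univ _)
    rw [← h3, ← h2]
    abel
  rw [h1]
  apply Submodule.sum_mem
  intro k hk
  rw [Finset.mem_erase, Finset.mem_erase] at hk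
  exact h k hk.2.1 hk.1

lemma sum_sub_mem' {m : ℕ} {M : Type*} [AddCommGroup M] [Module K M] (N : Submodule K M)
    (F : Fin m → M) (k0 : Fin m) (h : ∀ k, k ≠ k0 → F k ∈ N) :
    ∑ k, F k - F k0 ∈ N := by
  classical
  have h3 : ∑ k ∈ Finset.univ.erase k0, F k + F k0 = ∑ k, F k :=
    Finset.sum_erase_add _ _ (Finset.mem_univ _)
  rw [← h3, add_sub_cancel_right]
  apply Submodule.sum_mem
  intro k hk
  rw [Finset.mem_erase] at hk
  exact h k hk.1

lemma cpoly_sub_mem (i : Idx r s) :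
    cpoly K i.p i.q - qpoly K i ∈ Low K (ww r s) (dl r i.p i.q) := by
  have A : ∀ k : Fin (r + s + 1), k ≠ i.K1 → ¬ (i.p = i.q ∧ k = i.p) →
      xv K i.p k * yv K k i.q ∈ Low K (ww r s) (dl r i.p i.q) := by
    intro k hk hd
    apply xy_mem_Low
    apply w1_lt i.e (by omega)
    · intro h; exact hk (Fin.ext h)
    · rintro ⟨h1, h2⟩; exact hd ⟨Fin.ext h1, Fin.ext h2⟩
  have B : ∀ k : Fin (r + s + 1), k ≠ i.K2 → ¬ (i.p = i.q ∧ k = i.p) →
      yv K i.p k * xv K k i.q ∈ Low K (ww r s) (dl r i.p i.q) := by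
    intro k hk hd
    rw [mul_comm]
    apply xy_mem_Low
    rw [add_comm]
    apply w2_lt i.e (by omega)
    · intro h; exact hk (Fin.ext h)
    · rintro ⟨h1, h2⟩; exact hd ⟨Fin.ext h1, Fin.ext h2⟩
  by_cases hpq : i.p = i.q
  · have hk : kap r s i.p ≠ i.p := by
      apply kap_ne
      have := i.e
      rwa [← hpq] at this
    have hK1 : i.K1 ≠ i.p := by
      intro h
      apply hk
      have h1 : (i.K1 : ℕ) = i.p := by rw [h]
      rw [Idx.K1_val, ← hpq, k1_D] at h1
      exact h1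
    have hK2 : i.K2 ≠ i.p := by
      intro h
      apply hk
      have h1 : (i.K2 : ℕ) = i.p := by rw [h]
      rw [Idx.K2_val, ← hpq, k2_D] at h1
      exact h1
    have e1 : cpoly K i.p i.q - qpoly K i =
        (∑ k, xv K i.p k * yv K k i.q - xv K i.p i.K1 * yv K i.K1 i.q -
          xv K i.p i.p * yv K i.p i.q) -
        (∑ k, yv K i.p k * xv K k i.q - yv K i.p i.K2 * xv K i.K2 i.q -
          yv K i.p i.p * xv K i.p i.q) := by
      rw [cpoly, qpoly, ← hpq]
      ring
    rw [e1]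
    apply Submodule.sub_mem
    · exact sum_sub_mem K _ (fun k => xv K i.p k * yv K k i.q) i.K1 i.p hK1
        (fun k h1 h2 => A k h1 (fun h => h2 h.2))
    · exact sum_sub_mem K _ (fun k => yv K i.p k * xv K k i.q) i.K2 i.p hK2
        (fun k h1 h2 => B k h1 (fun h => h2 h.2))
  · have e1 : cpoly K i.p i.q - qpoly K i =
        (∑ k, xv K i.p k * yv K k i.q - xv K i.p i.K1 * yv K i.K1 i.q) -
        (∑ k, yv K i.p k * xv K k i.q - yv K i.p i.K2 * xv K i.K2 i.q) := by
      rw [cpoly, qpoly]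
      ring
    rw [e1]
    apply Submodule.sub_mem
    · exact sum_sub_mem' K _ (fun k => xv K i.p k * yv K k i.q) i.K1
        (fun k h1 => A k h1 (fun h => hpq h.1))
    · exact sum_sub_mem' K _ (fun k => yv K i.p k * xv K k i.q) i.K2
        (fun k h1 => B k h1 (fun h => hpq h.1))

/-! ### systems of leading monomials -/

section sys

variable (L : LSys r s)

/-- the weight of a system -/
def LSys.w : Var (r + s + 1) → ℕ := wV _ L.f L.g

open Classical in
/-- the leading monomial chosen by the system -/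
noncomputable def LSys.m (i : Idx r s) : Var (r + s + 1) →₀ ℕ :=
  if L.ch i.p i.q then mV i else mU i

lemma LSys.lead (i : Idx r s) : IsLead L.w (qpoly K i) (L.m i) := by
  rw [qpoly_eq, LSys.m]
  split_ifs with h
  · apply lead_sub'
    rw [mU, mV, LSys.w, wt_mon2, wt_mon2]
    obtain ⟨h1, h2, h3⟩ := L.h2 i.p i.q i.e h
    have a1 := L.hf i.p i.K1
    have a2 := L.hg i.K1 i.q
    simp only [Idx.K1_val, Idx.K2_val] at *
    omega
  · apply lead_sub
    rw [mU, mV, LSys.w, wt_mon2, wt_mon2]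
    obtain ⟨h1, h2, h3⟩ := L.h1 i.p i.q i.e h
    have a1 := L.hf i.K2 i.q
    have a2 := L.hg i.p i.K2
    simp only [Idx.K1_val, Idx.K2_val] at *
    omega

lemma LSys.w_of_mem {i : Idx r s} {v : Var (r + s + 1)} (hv : v ∈ (L.m i).support) :
    L.w v = 1 := by
  rw [LSys.m] at hv
  split_ifs at hv with h
  · obtain ⟨h1, h2, h3⟩ := L.h2 i.p i.q i.e h
    rcases mem_support_mon2 hv with rfl | rfl
    · exact h1
    · exact h2
  · obtain ⟨h1, h2, h3⟩ := L.h1 i.p i.q i.e h
    rcases mem_support_mon2 hv with rfl | rfl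
    · exact h1
    · exact h2

lemma LSys.disj (i j : Idx r s) (hij : i ≠ j) : Disjoint (L.m i).support (L.m j).support := by
  rw [Finset.disjoint_left]
  intro v hvi hvj
  apply hij
  rw [LSys.m] at hvi hvj
  split_ifs at hvi with hi <;> split_ifs at hvj with hj
  · rcases mem_support_mon2 hvi with rfl | rfl <;> rcases mem_support_mon2 hvj with h | h
    · simp only [Sum.inl.injEq, Prod.mk.injEq, Fin.ext_iff, Idx.K2_val] at h
      exact Idx.ext' (L.ix22 _ _ _ _ i.e j.e hi hj h.1 h.2) h.2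
    · simp at h
    · simp at h
    · simp only [Sum.inr.injEq, Prod.mk.injEq, Fin.ext_iff, Idx.K2_val] at h
      exact Idx.ext' h.1 (L.iy22 _ _ _ _ i.e j.e hi hj h.2 h.1)
  · rcases mem_support_mon2 hvi with rfl | rfl <;> rcases mem_support_mon2 hvj with h | h
    · simp only [Sum.inl.injEq, Prod.mk.injEq, Fin.ext_iff, Idx.K2_val, Idx.K1_val] at h
      exact (L.ix12 _ _ _ _ j.e i.e hj hi h.1.symm h.2.symm).elim
    · simp at h
    · simp at h
    · simp only [Sum.inr.injEq, Prod.mk.injEq, Fin.ext_iff, Idx.K2_val, Idx.K1_val] at h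
      exact (L.iy12 _ _ _ _ j.e i.e hj hi h.2.symm h.1.symm).elim
  · rcases mem_support_mon2 hvi with rfl | rfl <;> rcases mem_support_mon2 hvj with h | h
    · simp only [Sum.inl.injEq, Prod.mk.injEq, Fin.ext_iff, Idx.K2_val, Idx.K1_val] at h
      exact (L.ix12 _ _ _ _ i.e j.e hi hj h.1 h.2).elim
    · simp at h
    · simp at h
    · simp only [Sum.inr.injEq, Prod.mk.injEq, Fin.ext_iff, Idx.K2_val, Idx.K1_val] at h
      exact (L.iy12 _ _ _ _ i.e j.e hi hj h.2 h.1).elim
  · rcases mem_support_mon2 hvi with rfl | rfl <;> rcases mem_support_mon2 hvj with h | h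
    · simp only [Sum.inl.injEq, Prod.mk.injEq, Fin.ext_iff, Idx.K1_val] at h
      exact Idx.ext' h.1 (L.ix11 _ _ _ _ i.e j.e hi hj h.1 h.2)
    · simp at h
    · simp at h
    · simp only [Sum.inr.injEq, Prod.mk.injEq, Fin.ext_iff, Idx.K1_val] at h
      exact Idx.ext' (L.iy11 _ _ _ _ i.e j.e hi hj h.2 h.1) h.2

/-- variables of weight zero in the system are non-zero-divisors modulo the binomials -/
lemma LSys.nzd_var (S : Finset (Idx r s)) {v : Var (r + s + 1)} (hv : L.w v = 0)
    {g : MvPolynomial (Var (r + s + 1)) K}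
    (hg : X v * g ∈ Ideal.span (qpoly K '' (S : Set (Idx r s)))) :
    g ∈ Ideal.span (qpoly K '' (S : Set (Idx r s))) := by
  classical
  have hX : IsLead L.w (X v : MvPolynomial (Var (r + s + 1)) K) (Finsupp.single v 1) := by
    refine ⟨by simp [X], ?_⟩
    intro μ hμ hne
    rw [X, coeff_monomial, if_neg (Ne.symm hne)] at hμ
    exact absurd rfl hμ
  refine nzd (L.lead K) L.disj S hX ?_ hg
  intro i _
  rw [Finset.disjoint_left]
  intro u hu hu'
  have h1 := L.w_of_mem hu
  have h2 : u = v := by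
    by_contra h3
    have : (Finsupp.single v 1 : Var (r + s + 1) →₀ ℕ) u = 0 := Finsupp.single_eq_of_ne h3
    exact (Finsupp.mem_support_iff.mp hu') this
  rw [h2, hv] at h1
  omega

end sys

end comm

end Pool.Agent.Lib.MP_bf1dc4_ag
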