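import Mathlib
import Pool.Agent.Lib.MP_bf1dc4_ag.Poly

/-!
# Primality of the ideals generated by subsets of the commutator equations
-/

namespace Pool.Agent.Lib.MP_bf1dc4_ag

open MvPolynomial

variable (K : Type*) [Field K] {r s : ℕ}

/-- the eliminated variable -/
def TT (i : Idx r s) : Var (r + s + 1) :=
  if i.p ≠ i.q then Sum.inl (i.p, i.q) else if (i.p : ℕ) ≤ r then Sum.inr (i.p, i.K1)
  else Sum.inl (i.K1, i.p)

/-- its coefficient -/
noncomputable def AA (i : Idx r s) : MvPolynomial (Var (r + s + 1)) K :=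
  if i.p < i.q then - yv K i.p i.p else if i.q < i.p then yv K i.q i.q
  else if (i.p : ℕ) ≤ r then - xv K i.K1 i.p else - yv K i.p i.K1

/-- the rest -/
noncomputable def BB (i : Idx r s) : MvPolynomial (Var (r + s + 1)) K :=
  if i.p < i.q then xv K i.p i.p * yv K i.p i.q else if i.q < i.p then
    - (yv K i.p i.K2 * xv K i.K2 i.q)
  else xv K i.p i.K1 * yv K i.K1 i.p

/-- description of the eliminated variables -/
def isT : Var (r + s + 1) → Prop
  | Sum.inl (a, b) => ((a : ℕ) ≠ b ∧ (a : ℕ) + b = r + s) ∨ (r < (b : ℕ) ∧ (a : ℕ) = kap r s b)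
  | Sum.inr (a, b) => 0 < (a : ℕ) ∧ (a : ℕ) ≤ r ∧ (b : ℕ) = kap r s a

lemma isT_TT (i : Idx r s) : isT (TT i) := by
  have h := i.e
  rw [TT]
  split_ifs with h1 h2
  · left
    have h3 : (i.p : ℕ) ≠ i.q := fun h => h1 (Fin.ext h)
    have h4 := h.h
    exact ⟨h3, by omega⟩
  · rw [not_not] at h1
    rw [← h1] at h
    have h0 := h.h0
    refine ⟨by omega, h2, ?_⟩
    rw [Idx.K1_val, ← h1, k1_D]
  · rw [not_not] at h1
    right
    refine ⟨by omega, ?_⟩
    rw [Idx.K1_val, ← h1, k1_D]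

lemma TT_ne {i : Idx r s} (h : i.p ≠ i.q) : TT i = Sum.inl (i.p, i.q) := by
  rw [TT, if_pos h]

lemma TT_le {i : Idx r s} (h : i.p = i.q) (h' : (i.p : ℕ) ≤ r) :
    TT i = Sum.inr (i.p, i.K1) := by
  rw [TT, if_neg (not_not.mpr h), if_pos h']

lemma TT_gt {i : Idx r s} (h : i.p = i.q) (h' : ¬ (i.p : ℕ) ≤ r) :
    TT i = Sum.inl (i.K1, i.p) := by
  rw [TT, if_neg (not_not.mpr h), if_neg h']

lemma TT_aux {i j : Idx r s} (h1 : i.p ≠ i.q) (h2 : j.p = j.q)
    (h : (Sum.inl (i.p, i.q) : Var (r + s + 1)) = Sum.inl (j.K1, j.p)) : False := by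
  have hi := i.e
  have hj := j.e
  have hr := hi.hr
  have hs := hi.hs
  simp only [Sum.inl.injEq, Prod.mk.injEq, Fin.ext_iff, Idx.K1_val] at h
  rw [← h2, k1_D] at h
  rw [← h2] at hj
  have h5 : (i.p : ℕ) ≠ i.q := fun h => h1 (Fin.ext h)
  have h6 := hi.h
  rcases kap_cases hj with ⟨c1, c2⟩ | ⟨c1, c3, c2⟩ | ⟨c1, c3, c2⟩ <;> omega

lemma TT_inj (i j : Idx r s) (h : TT i = TT j) : i = j := by
  by_cases h1 : i.p = i.q <;> by_cases h2 : j.p = j.q
  · by_cases h3 : (i.p : ℕ) ≤ r <;> by_cases h4 : (j.p : ℕ) ≤ r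
    · rw [TT_le h1 h3, TT_le h2 h4] at h
      simp only [Sum.inr.injEq, Prod.mk.injEq, Fin.ext_iff] at h
      exact Idx.ext' h.1 (by rw [← h1, ← h2]; exact h.1)
    · rw [TT_le h1 h3, TT_gt h2 h4] at h
      simp at h
    · rw [TT_gt h1 h3, TT_le h2 h4] at h
      simp at h
    · rw [TT_gt h1 h3, TT_gt h2 h4] at h
      simp only [Sum.inl.injEq, Prod.mk.injEq, Fin.ext_iff] at h
      exact Idx.ext' h.2 (by rw [← h1, ← h2]; exact h.2)
  · by_cases h3 : (i.p : ℕ) ≤ r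
    · rw [TT_le h1 h3, TT_ne h2] at h
      simp at h
    · rw [TT_gt h1 h3, TT_ne h2] at h
      exact (TT_aux h2 h1 h.symm).elim
  · by_cases h4 : (j.p : ℕ) ≤ r
    · rw [TT_ne h1, TT_le h2 h4] at h
      simp at h
    · rw [TT_ne h1, TT_gt h2 h4] at h
      exact (TT_aux h1 h2 h).elim
  · rw [TT_ne h1, TT_ne h2] at h
    simp only [Sum.inl.injEq, Prod.mk.injEq] at h
    exact Idx.ext' (by rw [h.1]) (by rw [h.2])

lemma qpoly_TT (i : Idx r s) : qpoly K i = X (TT i) * AA K i + BB K i := by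
  have h := i.e
  rcases h.cases with ⟨a1, a2⟩ | ⟨a1, a2⟩ | ⟨a1, a2⟩
  · have e1 : i.p < i.q := a1
    have e2 : i.p ≠ i.q := ne_of_lt e1
    have e3 : i.K1 = i.p := Fin.ext (by rw [Idx.K1_val, k1_U a1])
    have e4 : i.K2 = i.p := Fin.ext (by rw [Idx.K2_val, k2_U a1])
    rw [qpoly, TT, AA, BB, if_pos e2, if_pos e1, if_pos e1, e3, e4]
    show _ = xv K i.p i.q * _ + _
    ring
  · have e1 : i.q < i.p := a1
    have e1' : ¬ i.p < i.q := not_lt_of_gt e1
    have e2 : i.p ≠ i.q := ne_of_gt e1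
    have e3 : i.K1 = i.q := Fin.ext (by rw [Idx.K1_val, k1_L a1])
    rw [qpoly, TT, AA, BB, if_pos e2, if_neg e1', if_neg e1', if_pos e1, if_pos e1, e3]
    show _ = xv K i.p i.q * _ + _
    ring
  · have e1 : i.p = i.q := Fin.ext a1
    have e2 : ¬ i.p < i.q := by rw [e1]; exact lt_irrefl _
    have e3 : ¬ i.q < i.p := by rw [e1]; exact lt_irrefl _
    have e4 : i.K2 = i.K1 := Fin.ext (by rw [Idx.K1_val, Idx.K2_val, ← a1, k1_D, k2_D])
    rw [qpoly, TT, AA, BB, if_neg (not_not.mpr e1), if_neg e2, if_neg e2, if_neg e3, if_neg e3,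
      e4, ← e1]
    split_ifs with h1
    · show _ = yv K i.p i.K1 * _ + _
      ring
    · show _ = xv K i.K1 i.p * _ + _
      ring

lemma AA_ne_zero (i : Idx r s) : AA K i ≠ 0 := by
  rw [AA]
  split_ifs
  · exact neg_ne_zero.mpr (X_ne_zero _)
  · exact X_ne_zero _
  · exact neg_ne_zero.mpr (X_ne_zero _)
  · exact neg_ne_zero.mpr (X_ne_zero _)

lemma X_mem_supported {S : Set (Idx r s)} {v : Var (r + s + 1)} (hv : ¬ isT v) :
    (X v : MvPolynomial (Var (r + s + 1)) K) ∈ supported K (TT '' S)ᶜ := by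
  apply Algebra.subset_adjoin
  refine ⟨v, ?_, rfl⟩
  rintro ⟨i, _, rfl⟩
  exact hv (isT_TT i)

lemma AA_mem (S : Set (Idx r s)) (i : Idx r s) : AA K i ∈ supported K (TT '' S)ᶜ := by
  have h := i.e
  have hr := h.hr
  have hs := h.hs
  rw [AA]
  split_ifs with h1 h2 h3
  · apply Subalgebra.neg_mem
    apply X_mem_supported
    rintro ⟨c1, c2, c3⟩
    have h4 : (i.p : ℕ) < i.q := h1
    rcases kap_cases h with ⟨d1, d2⟩ | ⟨d1, d3, d2⟩ | ⟨d1, d3, d2⟩ <;> omega
  · apply X_mem_supported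
    rintro ⟨c1, c2, c3⟩
    have h4 : (i.q : ℕ) < i.p := h2
    have h5 := h.h
    have h6 : kap r s i.q = 0 ∨ kap r s i.q = r := by unfold kap; split_ifs <;> simp
    have h7 : (i.q : ℕ) = r → kap r s i.q = 0 := fun h => kap_rs (Or.inl h)
    omega
  · have h4 : (i.p : ℕ) = i.q := le_antisymm (not_lt.mp h2) (not_lt.mp h1)
    have e1 : (i.K1 : ℕ) = kap r s i.p := by rw [Idx.K1_val, ← h4, k1_D]
    apply Subalgebra.neg_mem
    apply X_mem_supported
    have h0 := h.h0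
    rintro (⟨c1, c2⟩ | ⟨c1, c2⟩)
    · rw [e1] at c1 c2
      rcases kap_cases h with ⟨d1, d2⟩ | ⟨d1, d3, d2⟩ | ⟨d1, d3, d2⟩ <;> omega
    · omega
  · apply Subalgebra.neg_mem
    apply X_mem_supported
    rintro ⟨c1, c2, c3⟩
    exact h3 c2

lemma BB_mem (S : Set (Idx r s)) (i : Idx r s) : BB K i ∈ supported K (TT '' S)ᶜ := by
  have h := i.e
  have hr := h.hr
  have hs := h.hs
  have h5 := h.h
  have h0 := h.h0
  rw [BB]
  split_ifs with h1 h2
  · have h4 : (i.p : ℕ) < i.q := h1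
    apply Subalgebra.mul_mem
    · apply X_mem_supported
      rintro (⟨c1, c2⟩ | ⟨c1, c2⟩)
      · exact c1 rfl
      · omega
    · apply X_mem_supported
      rintro ⟨c1, c2, c3⟩
      rcases kap_cases h with ⟨d1, d2⟩ | ⟨d1, d3, d2⟩ | ⟨d1, d3, d2⟩ <;> omega
  · have h4 : (i.q : ℕ) < i.p := h2
    have e1 : (i.K2 : ℕ) = kap r s i.p := by rw [Idx.K2_val, k2_L h4]
    apply Subalgebra.neg_mem
    apply Subalgebra.mul_mem
    · apply X_mem_supported
      rintro ⟨c1, c2, c3⟩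
      omega
    · apply X_mem_supported
      rintro (⟨c1, c2⟩ | ⟨c1, c2⟩)
      · rw [e1] at c1 c2
        rcases kap_cases h with ⟨d1, d2⟩ | ⟨d1, d3, d2⟩ | ⟨d1, d3, d2⟩ <;> omega
      · omega
  · have h4 : (i.p : ℕ) = i.q := le_antisymm (not_lt.mp h2) (not_lt.mp h1)
    have e1 : (i.K1 : ℕ) = kap r s i.p := by rw [Idx.K1_val, ← h4, k1_D]
    apply Subalgebra.mul_mem
    · apply X_mem_supported
      rintro (⟨c1, c2⟩ | ⟨c1, c2⟩)
      · rw [e1] at c1 c2
        rcases kap_cases h with ⟨d1, d2⟩ | ⟨d1, d3, d2⟩ | ⟨d1, d3, d2⟩ <;> omega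
      · rw [e1] at c1
        rcases kap_cases h with ⟨d1, d2⟩ | ⟨d1, d3, d2⟩ | ⟨d1, d3, d2⟩ <;> omega
    · apply X_mem_supported
      rintro ⟨c1, c2, c3⟩
      rw [e1] at c1 c2 c3
      have h7 : kap r s r = 0 := kap_rs (Or.inl rfl)
      rcases kap_cases h with ⟨d1, d2⟩ | ⟨d1, d3, d2⟩ | ⟨d1, d3, d2⟩
      · omega
      · omega
      · rw [d2, h7] at c3
        omega

lemma neg_mul_mem {R : Type*} [CommRing R] {I : Ideal R} {a g : R} (h : - a * g ∈ I) :
    a * g ∈ I := by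
  have := I.neg_mem h
  simpa using this

lemma AA_nzd (S : Finset (Idx r s)) (i : Idx r s) (g : MvPolynomial (Var (r + s + 1)) K)
    (hg : AA K i * g ∈ Ideal.span (qpoly K '' (S : Set (Idx r s)))) :
    g ∈ Ideal.span (qpoly K '' (S : Set (Idx r s))) := by
  have h := i.e
  have hr := h.hr
  have hs := rs_le h
  have hs' := h.hs
  have h5 := h.h
  rw [AA] at hg
  -- the variable `y m m` with `m < s`, `m ≤ r`
  have key : ∀ m : Fin (r + s + 1), (m : ℕ) ≤ r → (m : ℕ) < s →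
      yv K m m * g ∈ Ideal.span (qpoly K '' (S : Set (Idx r s))) →
      g ∈ Ideal.span (qpoly K '' (S : Set (Idx r s))) := by
    intro m h1 h2 hg
    by_cases h3 : (m : ℕ) < r
    · exact (sysA r s).nzd_var K S (v := Sum.inr (m, m)) (gA_diag hr hs h3) hg
    · have h4 : (m : ℕ) = r := by omega
      refine (sysC r s).nzd_var K S (v := Sum.inr (m, m)) ?_ hg
      show gC r s m m = 0
      rw [h4]
      exact gC_rr hr (by omega)
  split_ifs at hg with h1 h2 h3
  · have h4 : (i.p : ℕ) < i.q := h1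
    exact key i.p (by omega) (by omega) (neg_mul_mem hg)
  · have h4 : (i.q : ℕ) < i.p := h2
    exact key i.q (by omega) (by omega) hg
  · have h4 : (i.p : ℕ) = i.q := le_antisymm (not_lt.mp h2) (not_lt.mp h1)
    have e1 : (i.K1 : ℕ) = kap r s i.p := by rw [Idx.K1_val, ← h4, k1_D]
    have h' : Eqn r s i.p i.p := by rw [← h4] at h; exact h
    refine (sysB r s).nzd_var K S (v := Sum.inl (i.K1, i.p)) ?_ (neg_mul_mem hg)
    show fB r s i.K1 i.p = 0
    rw [e1]
    exact fB_kap h' h3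
  · have h4 : (i.p : ℕ) = i.q := le_antisymm (not_lt.mp h2) (not_lt.mp h1)
    have e1 : (i.K1 : ℕ) = kap r s i.p := by rw [Idx.K1_val, ← h4, k1_D]
    have h' : Eqn r s i.p i.p := by rw [← h4] at h; exact h
    refine (sysB r s).nzd_var K S (v := Sum.inr (i.p, i.K1)) ?_ (neg_mul_mem hg)
    show gB r s i.p i.K1 = 0
    rw [e1]
    exact gB_kap h' (by omega)

/-- the ideal generated by any subset of the leading binomials is prime -/
theorem qprime (S : Finset (Idx r s)) :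
    (Ideal.span (qpoly K '' (S : Set (Idx r s)))).IsPrime :=
  prime_of_elim S TT (AA K) (BB K) (fun i _ j _ h => TT_inj i j h)
    (fun i _ => AA_mem K _ i) (fun i _ => BB_mem K _ i) (fun i _ => AA_ne_zero K i)
    (fun i _ => qpoly_TT K i) (fun i _ g hg => AA_nzd K S i g hg)

/-- the ideal generated by any subset of the commutator equations (indices in the block
diagonal, the entry `(0,0)` excluded) is prime -/
theorem cprime (S : Finset (Idx r s)) :
    (Ideal.span ((fun i : Idx r s => cpoly K i.p i.q) '' (S : Set (Idx r s)))).IsPrime := by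
  refine prime_of_leading (w := ww r s) (q := qpoly K) (δ := fun i => dl r i.p i.q) S
    (fun i _ => hom_qpoly K i) (fun i _ => cpoly_sub_mem K i) ?_ (qprime K S)
  exact strict_of_two S (hom_qpoly K) (cpoly_sub_mem K) ((sysB r s).lead K) (sysB r s).disj

end Pool.Agent.Lib.MP_bf1dc4_ag
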